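import Pool.Agent.Helper18_PP.StmtsC

/-!
# Squad PP, part CYD, module BIJ: the closed chains fixed by the shift are the powers of the chains
of `K`
-/

open scoped BigOperators

noncomputable section

namespace Pool.Agent.PP.H63

open Pool.Agent.Helper51_AWC Pool.Agent.Helper79_WRA

section basic

variable {K : Type} [Group K] {p : ℕ}

theorem mem_pwS {E : Subgroup K} {x : Fin (p + 1) → K} : x ∈ pwS p E ↔ ∀ j, x j ∈ E := by
  simp [pwS, Subgroup.mem_pi]

theorem mem_boxS {D : Subgroup (Fin (p + 1) → K)} {x : Fin (p + 1) → K} :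
    x ∈ boxS D ↔ ∀ j, ∃ y ∈ D, y j = x j := by
  simp [boxS, Subgroup.mem_pi, Subgroup.mem_map]

theorem pwS_le {E E' : Subgroup K} : pwS p E ≤ pwS p E' ↔ E ≤ E' := by
  constructor
  · intro h x hx
    have := h (x := fun _ => x) (mem_pwS.2 fun _ => hx)
    exact mem_pwS.1 this 0
  · intro h x hx
    exact mem_pwS.2 fun j => h (mem_pwS.1 hx j)

theorem pwS_inj : Function.Injective (pwS (K := K) p) := by
  intro E E' h
  exact le_antisymm (pwS_le.1 h.le) (pwS_le.1 h.ge)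

theorem pwS_bot : pwS p (⊥ : Subgroup K) = ⊥ := by
  ext x
  rw [mem_pwS, Subgroup.mem_bot]
  constructor
  · intro h; funext j; exact Subgroup.mem_bot.1 (h j)
  · rintro rfl j; exact Subgroup.one_mem _

theorem boxS_pwS (E : Subgroup K) : boxS (pwS p E) = pwS p E := by
  ext x
  rw [mem_boxS, mem_pwS]
  constructor
  · intro h j
    obtain ⟨y, hy, hyj⟩ := h j
    rw [← hyj]; exact mem_pwS.1 hy j
  · intro h j
    exact ⟨x, mem_pwS.2 h, rfl⟩

theorem isP_pwS {ℓ : ℕ} {E : Subgroup K} (hE : IsPGroup ℓ E) : IsPGroup ℓ (pwS p E) := by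
  rintro ⟨x, hx⟩
  have hx' := mem_pwS.1 hx
  have h : ∀ j, ∃ k : ℕ, x j ^ ℓ ^ k = 1 := by
    intro j
    obtain ⟨k, hk⟩ := hE ⟨x j, hx' j⟩
    exact ⟨k, by simpa using congrArg Subtype.val hk⟩
  choose k hk using h
  refine ⟨∑ j, k j, ?_⟩
  apply Subtype.ext
  simp only [Subgroup.coe_pow, Subgroup.coe_one]
  funext j
  obtain ⟨m, hm⟩ := Nat.exists_eq_add_of_le (Finset.single_le_sum (f := k) (fun i _ => Nat.zero_le _)
    (Finset.mem_univ j))
  rw [Pi.pow_apply, hm, pow_add, pow_mul, hk j, one_pow, Pi.one_apply]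

/-- the image of a subgroup under an automorphism -/
theorem map_eq_iff {Y : Type} [Group Y] (γ : MulAut Y) (D : Subgroup Y) :
    D.map γ.toMonoidHom = D ↔ ∀ x, γ x ∈ D ↔ x ∈ D := by
  constructor
  · intro h x
    constructor
    · intro hx
      rw [← h, Subgroup.mem_map] at hx
      obtain ⟨y, hy, hyx⟩ := hx
      have : y = x := γ.injective (by simpa using hyx)
      rwa [← this]
    · intro hx
      rw [← h]
      exact Subgroup.mem_map.2 ⟨x, hx, rfl⟩
  · intro h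
    ext y
    rw [Subgroup.mem_map]
    constructor
    · rintro ⟨x, hx, rfl⟩
      exact (h x).2 hx
    · intro hy
      refine ⟨γ.symm y, (h _).1 ?_, ?_⟩
      · simpa using hy
      · simp

theorem single_mem {E : Subgroup K} (j : Fin (p + 1)) (y : K) :
    (Pi.mulSingle j y : Fin (p + 1) → K) ∈ pwS p E ↔ y ∈ E := by
  rw [mem_pwS]
  constructor
  · intro h; simpa using h j
  · intro h i
    rcases eq_or_ne i j with rfl | hij
    · simpa using h
    · simp [Pi.mulSingle_eq_of_ne hij, Subgroup.one_mem]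

/-- automorphisms acting componentwise -/
theorem comp_iff (g : (Fin (p + 1) → K) → Fin (p + 1) → K) (γ : Fin (p + 1) → K → K)
    (hg : ∀ x j, g x j = γ j (x j)) (h1 : ∀ j, γ j 1 = 1) (E : Subgroup K) :
    (∀ x, g x ∈ pwS p E ↔ x ∈ pwS p E) ↔ ∀ j y, γ j y ∈ E ↔ y ∈ E := by
  constructor
  · intro h j y
    have h2 := h (Pi.mulSingle j y)
    have h3 : g (Pi.mulSingle j y) = Pi.mulSingle j (γ j y) := by
      funext i
      rw [hg]
      rcases eq_or_ne i j with rfl | hij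
      · simp
      · simp [Pi.mulSingle_eq_of_ne hij, h1]
    rwa [h3, single_mem, single_mem] at h2
  · intro h x
    rw [mem_pwS, mem_pwS]
    exact forall_congr' fun j => by rw [hg]; exact h j _

theorem norm_pwS (E : Subgroup K) :
    Subgroup.normalizer (pwS p E : Set (Fin (p + 1) → K)) =
      pwS p (Subgroup.normalizer (E : Set K)) := by
  ext x
  have h1 : x ∈ Subgroup.normalizer (pwS p E : Set (Fin (p + 1) → K)) ↔
      ∀ y, x * y * x⁻¹ ∈ pwS p E ↔ y ∈ pwS p E := by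
    rw [Subgroup.mem_normalizer_iff]
    exact forall_congr' fun y => Iff.comm
  have h2 : x ∈ pwS p (Subgroup.normalizer (E : Set K)) ↔
      ∀ j y, x j * y * (x j)⁻¹ ∈ E ↔ y ∈ E := by
    rw [mem_pwS]
    refine forall_congr' fun j => ?_
    rw [Subgroup.mem_normalizer_iff]
    exact forall_congr' fun y => Iff.comm
  rw [h1, h2]
  exact comp_iff (fun y => x * y * x⁻¹) (fun j y => x j * y * (x j)⁻¹) (fun _ _ => rfl)
    (fun j => by simp) E

end basic

section chains

variable {K : Type} [Group K] {p : ℕ}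

theorem mem_pwC {e : Finset (Subgroup K)} {D : Subgroup (Fin (p + 1) → K)} :
    D ∈ pwC p e ↔ ∃ E ∈ e, pwS p E = D := by
  classical
  simp [pwC]

theorem mem_psubIn_top {ℓ : ℕ} {Γ : Type} [Group Γ] [Finite Γ] {D : Subgroup Γ} :
    D ∈ psubIn ℓ (⊤ : Subgroup Γ) ↔ IsPGroup ℓ D := by
  simp [psubIn]

theorem stab_pwC (e : Finset (Subgroup K)) : stab (pwC p e) = pwS p (stab e) := by
  ext x
  have h1 : x ∈ stab (pwC p e) ↔ ∀ E ∈ e, ∀ j, x j ∈ Subgroup.normalizer (E : Set K) := by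
    unfold stab
    rw [Subgroup.mem_iInf]
    constructor
    · intro h E hE
      have h2 := Subgroup.mem_iInf.1 (h (pwS p E)) (mem_pwC.2 ⟨E, hE, rfl⟩)
      rw [norm_pwS] at h2
      exact mem_pwS.1 h2
    · intro h D
      rw [Subgroup.mem_iInf]
      intro hD
      obtain ⟨E, hE, rfl⟩ := mem_pwC.1 hD
      rw [norm_pwS]
      exact mem_pwS.2 (h E hE)
  rw [h1, mem_pwS]
  unfold stab
  simp only [Subgroup.mem_iInf]
  exact ⟨fun h j E hE => h E hE j, fun h E hE j => h j E hE⟩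

theorem top_eq {G : Type} [Group G] {d : Finset (Subgroup G)} {M : Subgroup G} (hM : M ∈ d)
    (h : ∀ D ∈ d, D ≤ M) : top d = M := by
  unfold top
  exact le_antisymm (sSup_le fun D hD => h D (by exact_mod_cast hD)) (le_sSup (by exact_mod_cast hM))

theorem normal_pwC {e : Finset (Subgroup K)} (hch : IsChain (· ≤ ·) (e : Set (Subgroup K)))
    (hne : e.Nonempty) : NormalChain (pwC p e) ↔ NormalChain e := by
  obtain ⟨M, hM, hmax⟩ := exists_greatest hch hne
  have h1 : top e = M := top_eq hM hmax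
  have h2 : top (pwC p e) = pwS p M := by
    refine top_eq (mem_pwC.2 ⟨M, hM, rfl⟩) fun D hD => ?_
    obtain ⟨E, hE, rfl⟩ := mem_pwC.1 hD
    exact pwS_le.2 (hmax E hE)
  unfold NormalChain
  rw [h1, h2]
  constructor
  · intro h E hE
    have h3 := h _ (mem_pwC.2 ⟨E, hE, rfl⟩)
    rw [norm_pwS] at h3
    exact pwS_le.1 h3
  · intro h D hD
    obtain ⟨E, hE, rfl⟩ := mem_pwC.1 hD
    rw [norm_pwS]
    exact pwS_le.2 (h E hE)

end chains

section shift

variable {K : Type} [Group K] {p : ℕ}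

theorem tw_apply {Y : Type} [Group Y] (α : MulAut Y) (n x : Y) : tw α n x = α (n * x * n⁻¹) := by
  simp [tw, MulAut.mul_apply]

theorem shift_zero {β₀ : MulAut K} {β : MulAut (Fin (p + 1) → K)} (hβ : IsShift p β β₀) (μ : K)
    (x : Fin (p + 1) → K) :
    (tw β (Pi.mulSingle (Fin.last p) μ) x) 0 = tw β₀ μ (x (Fin.last p)) := by
  rw [tw_apply, (hβ _).1, tw_apply]
  simp

theorem shift_succ {β₀ : MulAut K} {β : MulAut (Fin (p + 1) → K)} (hβ : IsShift p β β₀) (μ : K)
    (x : Fin (p + 1) → K) (j : Fin p) :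
    (tw β (Pi.mulSingle (Fin.last p) μ) x) j.succ = x j.castSucc := by
  rw [tw_apply, (hβ _).2]
  have h : j.castSucc ≠ Fin.last p := (Fin.castSucc_lt_last j).ne
  simp [Pi.mulSingle_eq_of_ne h]

theorem shift_mem {β₀ : MulAut K} {β : MulAut (Fin (p + 1) → K)} (hβ : IsShift p β β₀) (μ : K)
    (E : Subgroup K) (hE : ∀ y, tw β₀ μ y ∈ E ↔ y ∈ E) (x : Fin (p + 1) → K) :
    tw β (Pi.mulSingle (Fin.last p) μ) x ∈ pwS p E ↔ x ∈ pwS p E := by
  rw [mem_pwS, mem_pwS, Fin.forall_fin_succ, Fin.forall_fin_succ', shift_zero hβ, hE]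
  simp only [shift_succ hβ]
  exact And.comm

/-- a closed subgroup fixed by the shift is a power -/
theorem closed_eq {β₀ : MulAut K} {β : MulAut (Fin (p + 1) → K)} (hβ : IsShift p β β₀) (μ : K)
    (D : Subgroup (Fin (p + 1) → K)) (hD : boxS D = D)
    (hf : ∀ x, tw β (Pi.mulSingle (Fin.last p) μ) x ∈ D ↔ x ∈ D) :
    pwS p (D.map (Pi.evalMonoidHom (fun _ => K) 0)) = D ∧
      ∀ y, tw β₀ μ y ∈ D.map (Pi.evalMonoidHom (fun _ => K) 0) ↔
        y ∈ D.map (Pi.evalMonoidHom (fun _ => K) 0) := by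
  have hmem : ∀ (j : Fin (p + 1)) (y : K), y ∈ D.map (Pi.evalMonoidHom (fun _ => K) j) ↔
      ∃ x ∈ D, x j = y := by
    intro j y; simp [Subgroup.mem_map]
  set γ := tw β (Pi.mulSingle (Fin.last p) μ) with hγ
  have hinv : ∀ x, x ∈ D → ∃ x' ∈ D, γ x' = x := by
    intro x hx
    refine ⟨γ.symm x, (hf _).1 ?_, ?_⟩
    · simpa using hx
    · simp
  have hs : ∀ (j : Fin p) (y : K), y ∈ D.map (Pi.evalMonoidHom (fun _ => K) j.succ) ↔
      y ∈ D.map (Pi.evalMonoidHom (fun _ => K) j.castSucc) := by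
    intro j y
    rw [hmem, hmem]
    constructor
    · rintro ⟨x, hx, rfl⟩
      obtain ⟨x', hx', rfl⟩ := hinv x hx
      exact ⟨x', hx', (shift_succ hβ μ x' j).symm⟩
    · rintro ⟨x, hx, rfl⟩
      exact ⟨γ x, (hf x).2 hx, shift_succ hβ μ x j⟩
  have h0 : ∀ y : K, tw β₀ μ y ∈ D.map (Pi.evalMonoidHom (fun _ => K) 0) ↔
      y ∈ D.map (Pi.evalMonoidHom (fun _ => K) (Fin.last p)) := by
    intro y
    rw [hmem, hmem]
    constructor
    · rintro ⟨x, hx, hxy⟩
      obtain ⟨x', hx', rfl⟩ := hinv x hx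
      rw [hγ, shift_zero hβ] at hxy
      exact ⟨x', hx', (tw β₀ μ).injective hxy⟩
    · rintro ⟨x, hx, rfl⟩
      exact ⟨γ x, (hf x).2 hx, shift_zero hβ μ x⟩
  have hall : ∀ j : Fin (p + 1), D.map (Pi.evalMonoidHom (fun _ => K) j) =
      D.map (Pi.evalMonoidHom (fun _ => K) 0) := by
    intro j
    induction j using Fin.induction with
    | zero => rfl
    | succ j ih => rw [← ih]; ext y; exact hs j y
  refine ⟨?_, fun y => ?_⟩
  · ext x
    rw [mem_pwS]
    conv_rhs => rw [← hD, mem_boxS]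
    refine forall_congr' fun j => ?_
    rw [← hall j, hmem]
  · rw [h0, hall]

end shift

theorem bij : BijStmt := by
  intro ℓ K _ _ p αs β₀ α β hα hβ
  classical
  refine ⟨?_, ?_, ?_, ?_⟩
  · intro μ e he hfix
    obtain ⟨hsub, hbot, hch⟩ := mem_chainsOn.1 he
    refine ⟨mem_chainsOn.2 ⟨?_, ?_, ?_⟩, ?_, ?_⟩
    · intro D hD
      obtain ⟨E, hE, rfl⟩ := mem_pwC.1 hD
      exact mem_psubIn_top.2 (isP_pwS (mem_psubIn_top.1 (hsub hE)))
    · exact mem_pwC.2 ⟨⊥, hbot, pwS_bot⟩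
    · intro D hD D' hD' _
      obtain ⟨E, hE, rfl⟩ := mem_pwC.1 (Finset.mem_coe.1 hD)
      obtain ⟨E', hE', rfl⟩ := mem_pwC.1 (Finset.mem_coe.1 hD')
      rcases chain_total hch hE hE' with h | h
      · exact Or.inl (pwS_le.2 h)
      · exact Or.inr (pwS_le.2 h)
    · intro D hD
      obtain ⟨E, hE, rfl⟩ := mem_pwC.1 hD
      exact boxS_pwS E
    · intro D hD
      obtain ⟨E, hE, rfl⟩ := mem_pwC.1 hD
      exact (map_eq_iff _ _).2 (shift_mem hβ μ E ((map_eq_iff _ _).1 (hfix E hE)))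
  · intro μ d hd hcl hfix
    obtain ⟨hsub, hbot, hch⟩ := mem_chainsOn.1 hd
    have key : ∀ D ∈ d, pwS p (D.map (Pi.evalMonoidHom (fun _ => K) 0)) = D ∧
        ∀ y, tw β₀ μ y ∈ D.map (Pi.evalMonoidHom (fun _ => K) 0) ↔
        y ∈ D.map (Pi.evalMonoidHom (fun _ => K) 0) := fun D hD =>
      closed_eq hβ μ D (hcl D hD) ((map_eq_iff _ _).1 (hfix D hD))
    refine ⟨d.image fun D => D.map (Pi.evalMonoidHom (fun _ => K) 0), mem_chainsOn.2 ⟨?_, ?_, ?_⟩,
      ?_, ?_⟩
    · intro E hE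
      obtain ⟨D, hD, rfl⟩ := Finset.mem_image.1 hE
      exact mem_psubIn_top.2 (IsPGroup.map (mem_psubIn_top.1 (hsub hD)) _)
    · exact Finset.mem_image.2 ⟨⊥, hbot, Subgroup.map_bot _⟩
    · intro E hE E' hE' _
      obtain ⟨D, hD, rfl⟩ := Finset.mem_image.1 (Finset.mem_coe.1 hE)
      obtain ⟨D', hD', rfl⟩ := Finset.mem_image.1 (Finset.mem_coe.1 hE')
      rcases chain_total hch hD hD' with h | h
      · exact Or.inl (Subgroup.map_mono h)
      · exact Or.inr (Subgroup.map_mono h)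
    · intro E hE
      obtain ⟨D, hD, rfl⟩ := Finset.mem_image.1 hE
      exact (map_eq_iff _ _).2 (key D hD).2
    · ext D
      rw [mem_pwC]
      constructor
      · rintro ⟨E, hE, rfl⟩
        obtain ⟨D, hD, rfl⟩ := Finset.mem_image.1 hE
        rwa [(key D hD).1]
      · intro hD
        exact ⟨_, Finset.mem_image.2 ⟨D, hD, rfl⟩, (key D hD).1⟩
  · intro e e' h
    exact Finset.image_injective pwS_inj h
  · intro e he
    obtain ⟨hsub, hbot, hch⟩ := mem_chainsOn.1 he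
    refine ⟨Finset.card_image_of_injective _ pwS_inj, normal_pwC hch ⟨⊥, hbot⟩, stab_pwC e, ?_⟩
    intro n
    have h1 : ∀ E : Subgroup K, (pwS p E).map (tw α n).toMonoidHom = pwS p E ↔
        ∀ j, E.map (tw (αs j) (n j)).toMonoidHom = E := by
      intro E
      rw [map_eq_iff, comp_iff (fun x => tw α n x) (fun j y => tw (αs j) (n j) y)
        (fun x j => by rw [tw_apply, tw_apply, hα]; rfl) (fun j => map_one _) E]
      exact forall_congr' fun j => (map_eq_iff _ _).symm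
    constructor
    · intro h j E hE
      exact (h1 E).1 (h _ (mem_pwC.2 ⟨E, hE, rfl⟩)) j
    · intro h D hD
      obtain ⟨E, hE, rfl⟩ := mem_pwC.1 hD
      exact (h1 E).2 fun j => h j E hE

end Pool.Agent.PP.H63
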