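import Pool.Agent.Helper98_PP.StmtsR2b

/-!
# Squad PP, module JII: the pair sums of `N` vanish if the pair sums of the components vanish
-/

open scoped BigOperators

set_option linter.unusedSectionVars false

noncomputable section

namespace Pool.Agent.PP.H63

open Pool.Agent.PP Pool.Agent.Helper51_AWC Pool.Agent.Helper79_WRA

section aux

variable {G : Type} [Group G] {N : Subgroup G}

/-- The identification of the same subgroup inside two groups. -/
def thE (K L N : Subgroup G) (hL : K ≤ L) (hN : K ≤ N) : K.subgroupOf L ≃* K.subgroupOf N :=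
  (Subgroup.subgroupOfEquivOfLe hL).trans (Subgroup.subgroupOfEquivOfLe hN).symm

theorem thE_coe (K L N : Subgroup G) (hL : K ≤ L) (hN : K ≤ N) (y : K.subgroupOf L) :
    (((thE K L N hL hN y : K.subgroupOf N) : N) : G) = ((y : L) : G) := rfl

theorem iSup_sub {I : Type} {K : I → Subgroup G} (hle : ∀ i, K i ≤ N) (hs : (⨆ i, K i) = N) :
    (⨆ i, (K i).subgroupOf N) = ⊤ := by
  apply Subgroup.map_injective N.subtype_injective
  rw [Subgroup.map_iSup]
  have h1 : ∀ i, ((K i).subgroupOf N).map N.subtype = K i := fun i =>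
    Subgroup.map_subgroupOf_eq_of_le (hle i)
  simp_rw [h1]
  rw [hs, ← MonoidHom.range_eq_map, Subgroup.range_subtype]

theorem map_sub [N.Normal] (K K' : Subgroup G) (x : G)
    (h : K.map (MulAut.conj x).toMonoidHom = K') :
    (K.subgroupOf N).map (MulAut.conjNormal x : MulAut N).toMonoidHom = K'.subgroupOf N := by
  ext t
  rw [Subgroup.mem_map, Subgroup.mem_subgroupOf, ← h, Subgroup.mem_map]
  constructor
  · rintro ⟨s, hs, rfl⟩
    exact ⟨(s : G), Subgroup.mem_subgroupOf.1 hs, rfl⟩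
  · rintro ⟨s, hs, hst⟩
    have hs1 : x * s * x⁻¹ = t := hst
    have hsN : s ∈ N := by
      have h1 : s = x⁻¹ * t * x⁻¹⁻¹ := by
        rw [← hs1]
        group
      rw [h1]
      exact Subgroup.Normal.conj_mem ‹_› _ t.2 _
    refine ⟨⟨s, hsN⟩, Subgroup.mem_subgroupOf.2 hs, Subtype.ext ?_⟩
    exact hs1

end aux

/-- JII: vanishing of all the pair sums of `N` from the vanishing of the pair sums of the
components. -/
theorem jii (hB : BrgStmt) (hO : OrvStmt) (hI : IsoStmt) : JiiStmt := by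
  intro ℓ _ F _ hF G _ _ N _ b hb I _ _ K bK act hC hD τ hτ x y hreg hxy u u' hu
  have hb0 : (fun t : N => ext0 N b t) = b := by
    funext t
    simp [ext0]
  obtain ⟨hB1, -⟩ := hB ℓ F hF τ hτ G N (ext0 N b) hb x y
  obtain ⟨hT, hDJ⟩ := hB1 u u' hu
  rw [hDJ]
  rw [hb0] at hT ⊢
  have hact : ∀ g ∈ XF (ext0 N b) N, act g = 1 := fun g hg =>
    Equiv.ext fun i => (hC.xf g hg i).1
  have hcomm : act x * act y = act y * act x := by
    have h1 : x * y = x * y * x⁻¹ * y⁻¹ * (y * x) := by group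
    rw [← hC.mul, ← hC.mul, h1, hC.mul (x * y * x⁻¹ * y⁻¹), hact _ hxy, one_mul]
  let actH : G →* Equiv.Perm I := MonoidHom.mk' act hC.mul
  obtain ⟨i⟩ := (inferInstance : Nonempty I)
  refine hO ℓ F hF N I (fun i => (K i).subgroupOf N) b (MulAut.conjNormal x)
    (MulAut.conjNormal y) (act x) (act y) ?_ ?_ hC.center ?_ ?_ hcomm i
    (fun t : (K i).subgroupOf N => bK i t) (hC.blk i) ?_ τ hτ _ _ hT
  · intro i j hij s hs t ht
    exact Subtype.ext (hC.comm i j hij _ (Subgroup.mem_subgroupOf.1 hs) _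
      (Subgroup.mem_subgroupOf.1 ht))
  · exact iSup_sub hC.le hC.sup
  · exact fun i => map_sub _ _ x (hC.map x i)
  · exact fun i => map_sub _ _ y (hC.map y i)
  · intro p q k hp hq hpi hqi α₁ β₁ hα hβ
    set L := Subgroup.normalizer (K i : Set G) with hL
    have hx' : x ^ p ∈ L := by
      rw [hL, hC.norm]
      have h1 : act (x ^ p) = act x ^ p := map_pow actH x p
      rw [h1]
      exact hpi
    have hy' : y ^ q * x ^ k ∈ L := by
      rw [hL, hC.norm]
      have h1 : act (y ^ q * x ^ k) = act y ^ q * act x ^ k := by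
        have h2 : act (y ^ q) = act y ^ q := map_pow actH y q
        have h3 : act (x ^ k) = act x ^ k := map_pow actH x k
        rw [hC.mul, h2, h3]
      rw [h1]
      exact hqi
    have hKL : K i ≤ L := Subgroup.le_normalizer
    have hnorm : ((K i).subgroupOf L).Normal := Subgroup.normal_in_normalizer
    have hVan : Van ℓ (fun t : (K i).subgroupOf L => bK i t)
        (MulAut.conjNormal (⟨x ^ p, hx'⟩ : L)) (MulAut.conjNormal (⟨y ^ q * x ^ k, hy'⟩ : L)) := by
      intro τ' hτ' w wi hw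
      obtain ⟨hB2, hB3⟩ := hB ℓ F hF τ' hτ' L ((K i).subgroupOf L) (fun t : L => bK i t)
        (hC.sblk i) ⟨x ^ p, hx'⟩ ⟨y ^ q * x ^ k, hy'⟩
      obtain ⟨v, v', hv, hv2⟩ := hB3 w wi hw
      have h1 := (hB2 v v' hv).2
      have h2 : w = fun t : (K i).subgroupOf L => v ((⟨x ^ p, hx'⟩ : L) *
          (⟨y ^ q * x ^ k, hy'⟩ : L) * (⟨x ^ p, hx'⟩ : L)⁻¹ * (⟨y ^ q * x ^ k, hy'⟩ : L)⁻¹ * t) :=
        funext hv2
      rw [h2, ← h1]
      refine hD i τ' hτ' _ _ ?_ ?_ v v' hv
      · obtain ⟨s, hs, hxs⟩ := hreg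
        refine ⟨s, hs, ?_⟩
        have h3 : (x ^ p) ^ s ∈ XF (ext0 N b) N := by
          rw [← pow_mul, mul_comm, pow_mul]
          exact Subgroup.pow_mem _ hxs p
        exact (hC.xf _ h3 i).2 (Subgroup.pow_mem _ hx' s)
      · exact Subgroup.subset_closure ⟨v, v', hv⟩
    refine hI ℓ F _ _ (thE (K i) L N hKL (hC.le i)) _ _ _ _ _ _ ?_ ?_ ?_ hVan
    · intro t
      rfl
    · intro t
      apply Subtype.ext
      apply Subtype.ext
      rw [hα, ← map_pow]
      rfl
    · intro t
      apply Subtype.ext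
      apply Subtype.ext
      rw [hβ, ← map_pow, ← map_pow, ← map_mul]
      rfl

end Pool.Agent.PP.H63
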