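import Pool.Agent.Helper67_PP.StmtsU
import Pool.Agent.Helper67_PP.Stmts
import Pool.Agent.Helper96_PP.Lqv
import Pool.Agent.Helper96_PP.Fnl
import Pool.Agent.Helper17_PP.Lqn

/-!
# Squad PP, module LQU: the end of the proof of S1 in the group `D`

`D₀` is the preimage of the normal subgroup of order prime to `ℓ` and index a power of `ℓ` of the
nilpotent group `D / M`.
-/

open scoped BigOperators

noncomputable section

namespace Pool.Agent.PP.H63

open Pool.Agent.Helper51_AWC Pool.Agent.Helper79_WRA Pool.Agent.PP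

/-- A finite nilpotent group has a normal subgroup of order prime to `ℓ` and index a power of
`ℓ`. -/
theorem nil_compl {V : Type} [Group V] [Finite V] (hV : Group.IsNilpotent V) (ℓ : ℕ)
    [hl : Fact ℓ.Prime] : ∃ V₀ : Subgroup V, V₀.Normal ∧ ¬ ℓ ∣ Nat.card V₀ ∧
    ∃ n : ℕ, V₀.index = ℓ ^ n := by
  classical
  by_cases hd : ℓ ∣ Nat.card V
  · obtain ⟨e⟩ := ((Group.isNilpotent_of_finite_tfae (G := V)).out 0 4).1 hV
    have hmem : ℓ ∈ (Nat.card V).primeFactors :=
      Nat.mem_primeFactors.2 ⟨hl.out, hd, Nat.card_pos.ne'⟩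
    obtain ⟨P⟩ := (inferInstance : Nonempty (Sylow ℓ V))
    let π₁ : (∀ p : (Nat.card V).primeFactors, ∀ P : Sylow p V, (P : Subgroup V)) →*
        (∀ P : Sylow ℓ V, (P : Subgroup V)) :=
      Pi.evalMonoidHom (fun p : (Nat.card V).primeFactors => ∀ P : Sylow p V, (P : Subgroup V))
        ⟨ℓ, hmem⟩
    let π₂ : (∀ P : Sylow ℓ V, (P : Subgroup V)) →* (P : Subgroup V) :=
      Pi.evalMonoidHom (fun P : Sylow ℓ V => (P : Subgroup V)) P
    have hs₁ : Function.Surjective π₁ := Function.surjective_eval _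
    have hs₂ : Function.Surjective π₂ := Function.surjective_eval _
    let π : V →* (P : Subgroup V) := (π₂.comp π₁).comp e.symm.toMonoidHom
    have hπ : Function.Surjective π := (hs₂.comp hs₁).comp e.symm.surjective
    have hidx : π.ker.index = ℓ ^ (Nat.card V).factorization ℓ := by
      rw [Subgroup.index_ker, MonoidHom.range_eq_top.2 hπ, Subgroup.card_top]
      exact P.card_eq_multiplicity
    refine ⟨π.ker, inferInstance, ?_, _, hidx⟩
    intro h
    have h1 := π.ker.card_mul_index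
    rw [hidx] at h1
    have h2 : ℓ * ℓ ^ (Nat.card V).factorization ℓ ∣ Nat.card V :=
      (Nat.mul_dvd_mul h (dvd_refl _)).trans (dvd_of_eq h1)
    rw [mul_comm, ← pow_succ] at h2
    exact Nat.pow_succ_factorization_not_dvd (Nat.card_pos (α := V)).ne' hl.out h2
  · exact ⟨⊤, inferInstance, by rwa [Subgroup.card_top], 0, by rw [Subgroup.index_top, pow_zero]⟩

/-- the subgroup `D₀` of `D` over `M` -/
theorem exists_D0 {D : Type} [Group D] [Finite D] {M : Subgroup D} (hM : M.Normal) {m : ℕ}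
    (hm : (⊤ : Subgroup D).lowerCentralSeries m ≤ M) (ℓ : ℕ) [hl : Fact ℓ.Prime] :
    ∃ D₀ : Subgroup D, M ≤ D₀ ∧ D₀.Normal ∧ ¬ ℓ ∣ M.relIndex D₀ ∧ ∃ n : ℕ, D₀.index = ℓ ^ n := by
  classical
  have hV : Group.IsNilpotent (D ⧸ M) := by
    rw [Subgroup.nilpotent_iff_lowerCentralSeries]
    refine ⟨m, ?_⟩
    have h1 := Subgroup.map_lowerCentralSeries (⊤ : Subgroup D) (QuotientGroup.mk' M) m
    rw [Subgroup.map_top_of_surjective _ (QuotientGroup.mk'_surjective M)] at h1
    rw [← h1, Subgroup.map_eq_bot_iff, QuotientGroup.ker_mk']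
    exact hm
  obtain ⟨V₀, h1, h2, n, h3⟩ := nil_compl hV ℓ
  have hle : M ≤ V₀.comap (QuotientGroup.mk' M) := by
    intro x hx
    rw [Subgroup.mem_comap]
    have : (QuotientGroup.mk' M) x = 1 := (QuotientGroup.eq_one_iff x).2 hx
    rw [this]
    exact V₀.one_mem
  refine ⟨V₀.comap (QuotientGroup.mk' M), hle, h1.comap _, ?_, n, ?_⟩
  · have h4 := Subgroup.relIndex_ker (K := V₀.comap (QuotientGroup.mk' M)) (QuotientGroup.mk' M)
    rw [QuotientGroup.ker_mk', Subgroup.map_comap_eq_self_of_surjective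
      (QuotientGroup.mk'_surjective M)] at h4
    rwa [h4]
  · rw [Subgroup.index_comap_of_surjective _ (QuotientGroup.mk'_surjective M), h3]

/-- `ℓ`-regular elements lie in every normal subgroup of index a power of `ℓ`. -/
theorem reg_mem_pow {X : Type} [Group X] [Finite X] {ℓ : ℕ} [hl : Fact ℓ.Prime] {X₁ : Subgroup X}
    (hn : X₁.Normal) {n : ℕ} (h : X₁.index = ℓ ^ n) {x : X} (hx : Reg ℓ x) : x ∈ X₁ := by
  have hp : ℓ.Prime := hl.out
  rw [← QuotientGroup.eq_one_iff, ← orderOf_eq_one_iff]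
  have h1 : orderOf (x : X ⧸ X₁) ∣ orderOf x :=
    orderOf_map_dvd (QuotientGroup.mk' X₁) x
  have h2 : orderOf (x : X ⧸ X₁) ∣ ℓ ^ n := by
    rw [← h]
    exact orderOf_dvd_natCard _
  have hx' : Nat.Coprime (orderOf x) ℓ := hx
  exact Nat.eq_one_of_dvd_coprimes (Nat.Coprime.pow_right n hx') h1 h2

theorem mu_subgroupOf_eq {D : Type} [Group D] [Finite D] {M D₀ : Subgroup D} (hle : M ≤ D₀)
    (hc : Subgroup.center D₀ = (Subgroup.center D).subgroupOf D₀) :
    mu (M.subgroupOf D₀) = mu M := by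
  unfold mu
  rw [hc, Subgroup.relIndex_subgroupOf hle]

/-- LQU -/
theorem lqu (hOSI : OsiStmt) (hLQN : LqnStmt) (hFNL : H67.FnlStmt) : H67.LquStmt := by
  classical
  intro ℓ hl F _ hF S _ _ hS D _ _ M hM hO hns hCM hZ hZM hmu hgood hY hyp f hf hfaith hpos
  obtain ⟨⟨m, hm⟩, hv⟩ := H96.lqv (S := S) hS hO hns hM hCM hZM hmu
  obtain ⟨D₀, hle, hD₀, hrel, n, hn⟩ := exists_D0 hM hm ℓ
  obtain ⟨h1, h2, hc, -, h5⟩ := hv D₀ hle hD₀ hrel
  have hs : ∀ t, t ∉ D₀ → f t = 0 := by
    intro t ht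
    apply hOSI ℓ F hF D f hf t
    intro hreg
    exact ht (reg_mem_pow hD₀ hn hreg)
  have hf₀ : IsIdem (fun t : D₀ => f t) := H17.idem_sub hf hs
  have hpos₀ : Pos ℓ (fun t : D₀ => f t) (M.subgroupOf D₀) := H17.pos_sub hle hpos
  have hcardZ : Nat.card (Subgroup.center D₀) ∣ Nat.card (Subgroup.center D) := by
    rw [hc]
    exact Subgroup.card_comap_dvd_of_injective _ _ D₀.subtype_injective
  have hmu₀ : mu (M.subgroupOf D₀) = mu M := mu_subgroupOf_eq hle hc
  have hstep : YY ℓ (M.subgroupOf D₀) (fun t : D₀ => f t) = 0 := by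
    refine hFNL ℓ F hF D₀ (M.subgroupOf D₀) (hM.subgroupOf D₀) ?_ ?_ ?_ ?_ ?_ _ hf₀ hpos₀ ?_
    · apply le_antisymm
      · intro x hx
        rw [hc, Subgroup.mem_subgroupOf, ← hCM, Subgroup.mem_centralizer_iff]
        intro y hy
        exact congrArg Subtype.val
          (Subgroup.mem_centralizer_iff.1 hx ⟨y, hle hy⟩ hy)
      · exact Subgroup.center_le_centralizer _
    · exact fun h => hZ (h.trans hcardZ)
    · rw [hc]
      intro x hx
      exact hZM hx
    · exact hgood.subgroupOf D₀ le_rfl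
    · rw [hmu₀]
      exact hY
    · intro hp
      exact hyp D₀ D₀.subtype D₀.subtype_injective h1 h2 _ hf₀ (h5 F f hfaith) hp
  refine hLQN ℓ F hF D M D₀ hM hD₀ hle ⟨n, hn⟩ ?_ ?_ f hf hpos hstep
  · rw [hCM]
    exact hZ
  · intro H _ _ i Y' hi hY' hYM hmu'
    refine hY H Y' hY' hmu' ?_
    refine hgood.of_central i ?_ hYM
    rw [(MonoidHom.ker_eq_bot_iff i).2 hi]
    exact bot_le

end Pool.Agent.PP.H63
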