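import Pool.Agent.Helper97_PP.Kri
import Pool.Agent.Helper20_PP.Nls
import Pool.Agent.Helper74_PP.Brt

/-!
# Squad PP, module SMT: the second main theorem as a formula for ranks
-/

open scoped BigOperators

set_option linter.unusedSectionVars false

noncomputable section

namespace Pool.Agent.PP.H63

open Pool.Agent.PP Pool.Agent.Helper51_AWC Pool.Agent.Helper79_WRA

variable {F H : Type} [Field F] [Group H]

theorem cent_zp {u t : H} (ht : t ∈ Subgroup.centralizer (Subgroup.zpowers u : Set H)) :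
    t ∈ Subgroup.centralizer ({u} : Set H) := by
  rw [Subgroup.mem_centralizer_singleton_iff]
  rw [Subgroup.mem_centralizer_iff] at ht
  exact (ht u (Subgroup.mem_zpowers u)).symm

theorem zp_cent {u t : H} (ht : t ∈ Subgroup.centralizer ({u} : Set H)) :
    t ∈ Subgroup.centralizer (Subgroup.zpowers u : Set H) := by
  rw [Subgroup.mem_centralizer_singleton_iff] at ht
  rw [Subgroup.mem_centralizer_iff]
  rintro _ ⟨k, rfl⟩
  have h : Commute u t := ht.symm
  exact (h.zpow_left k).eq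

theorem cent_iff {u t : H} : t ∈ Subgroup.centralizer (Subgroup.zpowers u : Set H) ↔
    t ∈ Subgroup.centralizer ({u} : Set H) := ⟨cent_zp, zp_cent⟩

/-- SMA: the action on the coset of an `ℓ`-element. -/
theorem sma : SmaStmt := by
  classical
  intro ℓ F _ hF H _ _ a f ha hf u hu x
  have hch := hF.char
  have := Fintype.ofFinite H
  have hV : ∀ v : F, ℓ • v = 0 := by
    intro v
    rw [nsmul_eq_mul, CharP.cast_eq_zero, zero_mul]
  have hx : (x : H) * u = u * x := Subgroup.mem_centralizer_singleton_iff.1 x.2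
  have hR := Pool.Agent.PP.H97.isPGroup_zp hu
  unfold actF
  rw [finsum_eq_sum_of_fintype, finsum_eq_sum_of_fintype]
  rw [Pool.Agent.PP.H20.conj_sum hF.prime hV (Subgroup.zpowers u) hR
    (fun t => a t * f (t * (u * x))) (fun r hr t => by
      obtain ⟨k, rfl⟩ := hr
      change a (u ^ k * t * (u ^ k)⁻¹) * f (u ^ k * t * (u ^ k)⁻¹ * (u * x)) =
        a t * f (t * (u * x))
      have h1 : Commute (u ^ k) (u * x) := by
        have h2 : Commute u (u * x) := (Commute.refl u).mul_right (show Commute u x from hx.symm)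
        exact h2.zpow_left k
      have h3 : u ^ k * t * (u ^ k)⁻¹ * (u * x) = u ^ k * (t * (u * x)) * (u ^ k)⁻¹ := by
        have h4 : (u ^ k)⁻¹ * (u * x) = (u * x) * (u ^ k)⁻¹ := (h1.inv_left).eq
        rw [mul_assoc (u ^ k * t), h4]
        group
      rw [ha, h3, hf])]
  symm
  apply Fintype.sum_of_injective (fun t : Subgroup.centralizer ({u} : Set H) => (t : H))
    Subtype.val_injective
  · intro t ht
    rw [if_neg]
    intro hc
    exact ht ⟨⟨t, cent_iff.1 hc⟩, rfl⟩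
  · intro t
    rw [if_pos (cent_iff.2 t.2)]
    have ht : (t : H) * u = u * t := Subgroup.mem_centralizer_singleton_iff.1 t.2
    change a t * f (u * (t * x)) = a t * f (t * (u * x))
    rw [← mul_assoc, ← mul_assoc, ht]

/-- A central idempotent preserves the space of Brauer characters. -/
theorem act_TT {ℓ : ℕ} (hF : GoodF ℓ F) [Finite H] {a : H → F} (ha : IsCl a) {f : H → F}
    (hf : f ∈ TT F H ℓ) : actF a f ∈ TT F H ℓ := by
  have hb := Pool.Agent.PP.H74.brt Pool.Agent.PP.H20.ibf Pool.Agent.PP.H20.ibc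
    Pool.Agent.PP.H20.ibj Pool.Agent.PP.H20.ibn ℓ F hF H
  rw [← hb] at hf ⊢
  induction hf using Submodule.span_induction with
  | mem x hx =>
    obtain ⟨n, ρ, hρ, rfl⟩ := hx
    obtain ⟨w, -, hw, -⟩ := Pool.Agent.PP.H20.eig F H n ρ hρ a ha
    rw [hw]
    exact Submodule.smul_mem _ _ (Submodule.subset_span ⟨n, ρ, hρ, rfl⟩)
  | zero =>
    have : actF a (0 : H → F) = 0 := (actL a).map_zero
    rw [this]
    exact Submodule.zero_mem _
  | add x y _ _ hx hy =>
    have : actF a (x + y) = actF a x + actF a y := (actL a).map_add x y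
    rw [this]
    exact Submodule.add_mem _ hx hy
  | smul c x _ hx =>
    have : actF a (c • x) = c • actF a x := (actL a).map_smul c x
    rw [this]
    exact Submodule.smul_mem _ _ hx

theorem act_cl [Finite H] {a f : H → F} (ha : IsCl a) (hf : IsCl f) : IsCl (actF a f) := by
  have := Fintype.ofFinite H
  intro x y
  unfold actF
  rw [finsum_eq_sum_of_fintype, finsum_eq_sum_of_fintype,
    ← Equiv.sum_comp (MulAut.conj y).toEquiv (fun t => a t * f (t * (y * x * y⁻¹)))]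
  apply Finset.sum_congr rfl
  intro t _
  change a (y * t * y⁻¹) * f (y * t * y⁻¹ * (y * x * y⁻¹)) = a t * f (t * x)
  have h1 : y * t * y⁻¹ * (y * x * y⁻¹) = y * (t * x) * y⁻¹ := by group
  rw [ha, h1, hf]

/-- A central idempotent restricted to the centraliser of an `ℓ`-element. -/
theorem idem_cent {ℓ : ℕ} (hF : GoodF ℓ F) [Finite H] {e : H → F} (he : IsIdem e) {u : H}
    (hu : ∃ n : ℕ, u ^ ℓ ^ n = 1) :
    IsIdem (fun t : Subgroup.centralizer ({u} : Set H) => e t) := by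
  have h := (Pool.Agent.PP.H20.brm ℓ F hF H (Subgroup.zpowers u)
    (Subgroup.centralizer ({u} : Set H)) (Pool.Agent.PP.H97.isPGroup_zp hu)
    (fun t ht => cent_zp ht) (fun t ht => Subgroup.centralizer_le_normalizer _ (zp_cent ht))).2.2
    e he
  have h1 : (fun t : Subgroup.centralizer ({u} : Set H) => br (Subgroup.zpowers u) e t) =
      fun t : Subgroup.centralizer ({u} : Set H) => e t := by
    classical
    funext t
    simp only [br, if_pos (zp_cent t.2)]
  rwa [h1] at h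

/-- `q` is a power of `ℓ` which projects onto the `ℓ'`-parts. -/
def Proj (ℓ q : ℕ) (H : Type) [Group H] : Prop := ∀ t : H,
  Reg ℓ (t ^ q) ∧ (Reg ℓ t → t ^ q = t) ∧
    ∃ u : H, Commute (t ^ q) u ∧ (∃ n : ℕ, u ^ ℓ ^ n = 1) ∧ t = t ^ q * u

theorem Proj.one {ℓ q : ℕ} (hq : Proj ℓ q H) {u : H} (hu : ∃ n : ℕ, u ^ ℓ ^ n = 1) :
    u ^ q = 1 := by
  obtain ⟨n, hn⟩ := hu
  have h1 : (orderOf (u ^ q)).Coprime ℓ := (hq u).1
  have h2 : (u ^ q) ^ ℓ ^ n = 1 := by
    rw [← pow_mul, mul_comm, pow_mul, hn, one_pow]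
  have h3 : orderOf (u ^ q) ∣ ℓ ^ n := orderOf_dvd_of_pow_eq_one h2
  have h4 : orderOf (u ^ q) = 1 := Nat.Coprime.eq_one_of_dvd (h1.pow_right n) h3
  exact orderOf_eq_one_iff.1 h4

theorem Proj.pow_pow {ℓ q : ℕ} (hq : Proj ℓ q H) (t : H) : (t ^ q) ^ q = t ^ q :=
  (hq (t ^ q)).2.1 (hq t).1

theorem Proj.sub {ℓ q : ℕ} (hq : Proj ℓ q H) (X : Subgroup H) : Proj ℓ q X := by
  intro t
  have h := hq t
  refine ⟨?_, ?_, ?_⟩
  · have h1 : orderOf (t ^ q) = orderOf ((t : H) ^ q) := by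
      rw [← Subgroup.coe_pow, Subgroup.orderOf_coe]
    unfold Reg
    rw [h1]
    exact h.1
  · intro ht
    apply Subtype.ext
    rw [Subgroup.coe_pow]
    apply h.2.1
    unfold Reg
    rw [Subgroup.orderOf_coe]
    exact ht
  · obtain ⟨u, h1, ⟨n, h2⟩, h3⟩ := h.2.2
    have h4 : u = ((t : H) ^ q)⁻¹ * t := by
      conv_rhs => rw [h3]
      have h5 : ((t : H) ^ q * u) ^ q = (t : H) ^ q := by rw [← h3]
      rw [h5, inv_mul_cancel_left]
    have h6 : u ∈ X := by
      rw [h4]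
      exact X.mul_mem (X.inv_mem (X.pow_mem t.2 q)) t.2
    exact ⟨⟨u, h6⟩, Subtype.ext h1, ⟨n, Subtype.ext h2⟩, Subtype.ext h3⟩

/-- Functions in `TT` only depend on the `ℓ'`-part. -/
theorem Proj.tt {ℓ q : ℕ} (hq : Proj ℓ q H) {f : H → F} (hf : f ∈ TT F H ℓ) (x : H) :
    f (x ^ q) = f x := by
  obtain ⟨u, h1, h2, h3⟩ := (hq x).2.2
  conv_rhs => rw [h3]
  exact (hf.2 _ _ h1 h2).symm

/-- The function `w ↦ f (u w')` on the centraliser of `u`. -/
def phi (q : ℕ) (u : H) (f : H → F) : Subgroup.centralizer ({u} : Set H) → F :=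
  fun w => f (u * (w : H) ^ q)

theorem phi_TT {ℓ q : ℕ} (hq : Proj ℓ q H) {f : H → F} (hf : IsCl f) (u : H) :
    phi q u f ∈ TT F (Subgroup.centralizer ({u} : Set H)) ℓ := by
  refine ⟨fun x y => ?_, ?_⟩
  · have hy : (y : H) * u = u * y := Subgroup.mem_centralizer_singleton_iff.1 y.2
    change f (u * ((y : H) * x * (y : H)⁻¹) ^ q) = f (u * (x : H) ^ q)
    rw [conj_pow]
    have h1 : u * ((y : H) * (x : H) ^ q * (y : H)⁻¹) = y * (u * (x : H) ^ q) * (y : H)⁻¹ := by
      rw [← mul_assoc, ← mul_assoc, ← mul_assoc, hy]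
    rw [h1, hf]
  · rintro x y hxy ⟨n, hn⟩
    change f (u * ((x : H) * (y : H)) ^ q) = f (u * (x : H) ^ q)
    have h1 : Commute (x : H) (y : H) := congrArg Subtype.val hxy
    have h2 : (y : H) ^ q = 1 := hq.one ⟨n, congrArg Subtype.val hn⟩
    rw [h1.mul_pow, h2, mul_one]

theorem phi_act {ℓ q : ℕ} (hF : GoodF ℓ F) [Finite H] (hq : Proj ℓ q H) {e f : H → F}
    (he : IsIdem e) (hf : IsCl f) {u : H} (hu : ∃ n : ℕ, u ^ ℓ ^ n = 1) :
    phi q u (actF e f) =
      actF (fun t : Subgroup.centralizer ({u} : Set H) => e t) (phi q u f) := by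
  set C := Subgroup.centralizer ({u} : Set H) with hC
  funext w
  have hqC := hq.sub C
  have h1 := sma ℓ F hF H e f he.1 hf u hu (w ^ q)
  change actF e f (u * ((w ^ q : C) : H)) = _
  rw [h1]
  have h2 : actF (fun t : C => e t) (phi q u f) ∈ TT F C ℓ :=
    act_TT hF (idem_cent hF he hu).1 (phi_TT hq hf u)
  rw [← hqC.tt h2 w]
  have h3 : IsCl (fun w : C => f (u * w) - phi q u f w) := by
    intro x y
    have h4 := (phi_TT hq hf u).1 x y
    have hy : (y : H) * u = u * y := Subgroup.mem_centralizer_singleton_iff.1 y.2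
    change f (u * ((y : H) * x * (y : H)⁻¹)) - phi q u f (y * x * y⁻¹) = _
    have h5 : u * ((y : H) * (x : H) * (y : H)⁻¹) = y * (u * (x : H)) * (y : H)⁻¹ := by
      rw [← mul_assoc, ← mul_assoc, ← mul_assoc, hy]
    rw [h4, h5, hf]
  have h4 := Pool.Agent.PP.H74.rgl ℓ F hF C (fun t : C => e t)
    (fun w : C => f (u * w) - phi q u f w) (idem_cent hF he hu) h3 (fun x hx => by
      have h5 : x ^ q = x := (hqC x).2.1 hx
      have h6 : (x : H) ^ q = x := by rw [← Subgroup.coe_pow, h5]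
      change f (u * x) - f (u * (x : H) ^ q) = 0
      rw [h6, sub_self]) (w ^ q) (hqC w).1
  have h5 : actF (fun t : C => e t) (fun w : C => f (u * w) - phi q u f w) =
      actF (fun t : C => e t) (fun w : C => f (u * w)) -
        actF (fun t : C => e t) (phi q u f) :=
    (actL (fun t : C => e t)).map_sub (fun w : C => f (u * w)) (phi q u f)
  rw [h5, Pi.sub_apply, sub_eq_zero] at h4
  exact h4

/-- The classes of `ℓ`-elements. -/
def JJ (ℓ : ℕ) (H : Type) [Group H] : Type :=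
  {c : ConjClasses H // ∃ n : ℕ, (Quotient.out c : H) ^ ℓ ^ n = 1}

/-- A representative. -/
def rp {ℓ : ℕ} (j : JJ ℓ H) : H := Quotient.out j.1

theorem rp_pow {ℓ : ℕ} (j : JJ ℓ H) : ∃ n : ℕ, (rp j) ^ ℓ ^ n = 1 := j.2

theorem mk_rp {ℓ : ℕ} (j : JJ ℓ H) : ConjClasses.mk (rp j) = j.1 := Quotient.out_eq j.1

theorem rp_inj {ℓ : ℕ} {j j' : JJ ℓ H} (h : IsConj (rp j) (rp j')) : j = j' := by
  apply Subtype.ext
  rw [← mk_rp, ← mk_rp]
  exact ConjClasses.mk_eq_mk_iff_isConj.2 h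

theorem exists_rp {ℓ : ℕ} {u : H} (hu : ∃ n : ℕ, u ^ ℓ ^ n = 1) :
    ∃ (j : JJ ℓ H) (y : H), y * rp j * y⁻¹ = u := by
  obtain ⟨n, hn⟩ := hu
  have h1 : IsConj (Quotient.out (ConjClasses.mk u) : H) u :=
    ConjClasses.mk_eq_mk_iff_isConj.1 (Quotient.out_eq (ConjClasses.mk u))
  obtain ⟨y, hy⟩ := isConj_iff.1 h1
  refine ⟨⟨ConjClasses.mk u, n, ?_⟩, y, hy⟩
  have h2' : ∀ v : H, y * v * y⁻¹ = u → v = y⁻¹ * u * y := by
    rintro v rfl
    group
  have h2 := h2' _ hy
  have h3 : y⁻¹ * u * y = y⁻¹ * u * (y⁻¹)⁻¹ := by rw [inv_inv]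
  rw [h2, h3, conj_pow, hn]
  group

theorem phi_inj {ℓ q : ℕ} (hq : Proj ℓ q H) {f : H → F} (hf : IsCl f)
    (h0 : ∀ j : JJ ℓ H, phi q (rp j) f = 0) : f = 0 := by
  funext x
  obtain ⟨u, h1, h2, h3⟩ := (hq x).2.2
  obtain ⟨j, y, hy⟩ := exists_rp h2
  have h4 : y⁻¹ * x ^ q * y ∈ Subgroup.centralizer ({rp j} : Set H) := by
    rw [Subgroup.mem_centralizer_singleton_iff]
    have h5 : rp j = y⁻¹ * u * y := by rw [← hy]; group
    rw [h5]
    calc y⁻¹ * x ^ q * y * (y⁻¹ * u * y) = y⁻¹ * (x ^ q * u) * y := by group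
      _ = y⁻¹ * (u * x ^ q) * y := by rw [h1.eq]
      _ = y⁻¹ * u * y * (y⁻¹ * x ^ q * y) := by group
  have h6 := congrFun (h0 j) ⟨_, h4⟩
  change f (rp j * (y⁻¹ * x ^ q * y) ^ q) = 0 at h6
  have h7 : (y⁻¹ * x ^ q * y) ^ q = y⁻¹ * x ^ q * y := by
    have h8 : y⁻¹ * x ^ q * y = y⁻¹ * x ^ q * (y⁻¹)⁻¹ := by rw [inv_inv]
    rw [h8, conj_pow, hq.pow_pow]
  rw [h7] at h6
  have h9 : x = y * (rp j * (y⁻¹ * x ^ q * y)) * y⁻¹ := by
    have h10 : y * (rp j * (y⁻¹ * x ^ q * y)) * y⁻¹ = (y * rp j * y⁻¹) * x ^ q := by group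
    rw [h10, hy, ← h1.eq]
    exact h3
  rw [h9, hf, h6]
  rfl

/-- The relation that defines the function with given images. -/
def Rel {ℓ : ℕ} (q : ℕ) (φ : ∀ j : JJ ℓ H, Subgroup.centralizer ({rp j} : Set H) → F) (x : H)
    (v : F) : Prop :=
  ∃ (j : JJ ℓ H) (y : H) (hw : y⁻¹ * x ^ q * y ∈ Subgroup.centralizer ({rp j} : Set H)),
    y * rp j * y⁻¹ = x * (x ^ q)⁻¹ ∧ v = φ j ⟨_, hw⟩

theorem rel_exists {ℓ q : ℕ} (hq : Proj ℓ q H)
    (φ : ∀ j : JJ ℓ H, Subgroup.centralizer ({rp j} : Set H) → F) (x : H) :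
    ∃ v, Rel q φ x v := by
  obtain ⟨u, h1, h2, h3⟩ := (hq x).2.2
  have h3' : x * (x ^ q)⁻¹ = u := by
    have h4 : x = u * x ^ q := by rw [← h1.eq]; exact h3
    calc x * (x ^ q)⁻¹ = (u * x ^ q) * (x ^ q)⁻¹ := by rw [← h4]
      _ = u := mul_inv_cancel_right u (x ^ q)
  obtain ⟨j, y, hy⟩ := exists_rp h2
  have h4 : y⁻¹ * x ^ q * y ∈ Subgroup.centralizer ({rp j} : Set H) := by
    rw [Subgroup.mem_centralizer_singleton_iff]
    have h5 : rp j = y⁻¹ * u * y := by rw [← hy]; group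
    rw [h5]
    calc y⁻¹ * x ^ q * y * (y⁻¹ * u * y) = y⁻¹ * (x ^ q * u) * y := by group
      _ = y⁻¹ * (u * x ^ q) * y := by rw [h1.eq]
      _ = y⁻¹ * u * y * (y⁻¹ * x ^ q * y) := by group
  exact ⟨_, j, y, h4, by rw [hy, h3'], rfl⟩

theorem rel_unique {ℓ q : ℕ} {φ : ∀ j : JJ ℓ H, Subgroup.centralizer ({rp j} : Set H) → F}
    (hφ : ∀ j, IsCl (φ j)) {x : H} {v v' : F} (h : Rel q φ x v) (h' : Rel q φ x v') : v = v' := by
  obtain ⟨j, y, hw, hy, rfl⟩ := h
  obtain ⟨j', y', hw', hy', rfl⟩ := h'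
  obtain rfl : j = j' := by
    apply rp_inj
    rw [isConj_iff]
    refine ⟨y'⁻¹ * y, ?_⟩
    calc y'⁻¹ * y * rp j * (y'⁻¹ * y)⁻¹ = y'⁻¹ * (y * rp j * y⁻¹) * y' := by group
      _ = y'⁻¹ * (y' * rp j' * y'⁻¹) * y' := by rw [hy, hy']
      _ = rp j' := by group
  have h1 : y'⁻¹ * y ∈ Subgroup.centralizer ({rp j} : Set H) := by
    rw [Subgroup.mem_centralizer_singleton_iff]
    calc y'⁻¹ * y * rp j = y'⁻¹ * (y * rp j * y⁻¹) * y := by group
      _ = y'⁻¹ * (y' * rp j * y'⁻¹) * y := by rw [hy, hy']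
      _ = rp j * (y'⁻¹ * y) := by group
  have h2 := hφ j ⟨_, hw⟩ ⟨_, h1⟩
  rw [← h2]
  congr 1
  apply Subtype.ext
  change y'⁻¹ * y * (y⁻¹ * x ^ q * y) * (y'⁻¹ * y)⁻¹ = y'⁻¹ * x ^ q * y'
  group

theorem phi_surj {ℓ q : ℕ} (hq : Proj ℓ q H)
    (φ : ∀ j : JJ ℓ H, Subgroup.centralizer ({rp j} : Set H) → F)
    (hφ : ∀ j, φ j ∈ TT F (Subgroup.centralizer ({rp j} : Set H)) ℓ) :
    ∃ f : H → F, IsCl f ∧ ∀ j, phi q (rp j) f = φ j := by
  choose f hf using rel_exists hq φ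
  refine ⟨f, fun x z => ?_, fun j => ?_⟩
  · refine rel_unique (fun j => (hφ j).1) (hf (z * x * z⁻¹)) ?_
    obtain ⟨j, y, hw, hy, hv⟩ := hf x
    have h1 : (z * y)⁻¹ * (z * x * z⁻¹) ^ q * (z * y) = y⁻¹ * x ^ q * y := by
      rw [conj_pow]
      group
    refine ⟨j, z * y, by rw [h1]; exact hw, ?_, ?_⟩
    · rw [conj_pow]
      calc z * y * rp j * (z * y)⁻¹ = z * (y * rp j * y⁻¹) * z⁻¹ := by group
        _ = z * (x * (x ^ q)⁻¹) * z⁻¹ := by rw [hy]
        _ = z * x * z⁻¹ * (z * x ^ q * z⁻¹)⁻¹ := by group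
    · rw [hv]
      congr 1
      exact Subtype.ext h1.symm
  · funext w
    change f (rp j * (w : H) ^ q) = φ j w
    refine rel_unique (fun j => (hφ j).1) (hf _) ?_
    have hw : Commute (w : H) (rp j) := Subgroup.mem_centralizer_singleton_iff.1 w.2
    have h1 : (rp j * (w : H) ^ q) ^ q = (w : H) ^ q := by
      rw [(hw.symm.pow_right q).mul_pow, hq.one (rp_pow j), one_mul, hq.pow_pow]
    have h2 : (1 : H)⁻¹ * (rp j * (w : H) ^ q) ^ q * 1 = (w ^ q : Subgroup.centralizer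
        ({rp j} : Set H)) := by
      rw [h1, inv_one, one_mul, mul_one, Subgroup.coe_pow]
    refine ⟨j, 1, by rw [h2]; exact (w ^ q).2, ?_, ?_⟩
    · rw [h1, one_mul, inv_one, mul_one, mul_inv_cancel_right]
    · rw [← (hq.sub _).tt (hφ j) w]
      congr 1
      exact Subtype.ext h2.symm

/-- `phi` as a linear map -/
def phiL (F : Type) [Field F] {H : Type} [Group H] (q : ℕ) (u : H) :
    (H → F) →ₗ[F] (Subgroup.centralizer ({u} : Set H) → F) where
  toFun f := phi q u f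
  map_add' _ _ := rfl
  map_smul' _ _ := rfl

instance {ℓ : ℕ} [Finite H] : Finite (JJ ℓ H) := by
  unfold JJ
  infer_instance

theorem rank_sum {ℓ q : ℕ} (hF : GoodF ℓ F) [Finite H] [Fintype (JJ ℓ H)] (hq : Proj ℓ q H)
    {e : H → F} (he : IsIdem e) :
    rk e (cfs F H) = ∑ j : JJ ℓ H, rk (fun t : Subgroup.centralizer ({rp j} : Set H) => e t)
      (TT F (Subgroup.centralizer ({rp j} : Set H)) ℓ) := by
  have := Fintype.ofFinite H
  unfold rk
  have hmem : ∀ j : JJ ℓ H, ∀ g ∈ (cfs F H).map (actL e), phiL F q (rp j) g ∈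
      (TT F (Subgroup.centralizer ({rp j} : Set H)) ℓ).map
        (actL (fun t : Subgroup.centralizer ({rp j} : Set H) => e t)) := by
    rintro j _ ⟨f, hf, rfl⟩
    refine ⟨phi q (rp j) f, phi_TT hq hf _, ?_⟩
    exact (phi_act hF hq he hf (rp_pow j)).symm
  let Ψ : ((cfs F H).map (actL e)) →ₗ[F]
      (∀ j : JJ ℓ H, ((TT F (Subgroup.centralizer ({rp j} : Set H)) ℓ).map
        (actL (fun t : Subgroup.centralizer ({rp j} : Set H) => e t)))) :=
    LinearMap.pi fun j => (phiL F q (rp j)).restrict (hmem j)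
  have hinj : Function.Injective Ψ := by
    rw [← LinearMap.ker_eq_bot, LinearMap.ker_eq_bot']
    rintro ⟨_, f, hf, rfl⟩ h
    apply Subtype.ext
    refine phi_inj hq (act_cl he.1 hf) (fun j => ?_)
    exact congrArg Subtype.val (congrFun h j)
  have hsurj : Function.Surjective Ψ := by
    intro φ
    choose ψ hψ1 hψ2 using fun j => (φ j).2
    obtain ⟨f, hf, hf2⟩ := phi_surj hq ψ hψ1
    refine ⟨⟨actL e f, f, hf, rfl⟩, ?_⟩
    funext j
    apply Subtype.ext
    change phi q (rp j) (actF e f) = _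
    rw [phi_act hF hq he hf (rp_pow j), hf2]
    exact hψ2 j
  rw [(LinearEquiv.ofBijective Ψ ⟨hinj, hsurj⟩).finrank_eq, Module.finrank_pi_fintype]

/-- The `ℓ`-numbers of centralisers of conjugate elements agree. -/
theorem lnum_conj [Finite H] {e : H → F} (he : IsCl e) (u y : H) :
    lnum (Subgroup.centralizer ({y * u * y⁻¹} : Set H)) e =
      lnum (Subgroup.centralizer ({u} : Set H)) e := by
  have h1 : (Subgroup.centralizer ({u} : Set H)).map (MulAut.conj y).toMonoidHom =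
      Subgroup.centralizer ({y * u * y⁻¹} : Set H) := by
    ext t
    rw [Subgroup.mem_map, Subgroup.mem_centralizer_singleton_iff]
    constructor
    · rintro ⟨x, hx, rfl⟩
      rw [Subgroup.mem_centralizer_singleton_iff] at hx
      change y * x * y⁻¹ * (y * u * y⁻¹) = y * u * y⁻¹ * (y * x * y⁻¹)
      calc y * x * y⁻¹ * (y * u * y⁻¹) = y * (x * u) * y⁻¹ := by group
        _ = y * (u * x) * y⁻¹ := by rw [hx]
        _ = y * u * y⁻¹ * (y * x * y⁻¹) := by group
    · intro h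
      refine ⟨y⁻¹ * t * y, ?_, ?_⟩
      · rw [Subgroup.mem_centralizer_singleton_iff]
        calc y⁻¹ * t * y * u = y⁻¹ * (t * (y * u * y⁻¹)) * y := by group
          _ = y⁻¹ * (y * u * y⁻¹ * t) * y := by rw [h]
          _ = u * (y⁻¹ * t * y) := by group
      · change y * (y⁻¹ * t * y) * y⁻¹ = t
        group
  have h2 := Pool.Agent.PP.H97.ncard_comp (F := F)
    (MulEquiv.subgroupMap (MulAut.conj y) (Subgroup.centralizer ({u} : Set H)))
    (fun t : (Subgroup.centralizer ({u} : Set H)).map (MulAut.conj y).toMonoidHom => e t)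
  have h3 : (fun t : Subgroup.centralizer ({u} : Set H) =>
      e ((MulEquiv.subgroupMap (MulAut.conj y) (Subgroup.centralizer ({u} : Set H)) t :
        (Subgroup.centralizer ({u} : Set H)).map (MulAut.conj y).toMonoidHom) : H)) =
      fun t : Subgroup.centralizer ({u} : Set H) => e t := by
    funext t
    exact he t y
  rw [h3] at h2
  calc lnum (Subgroup.centralizer ({y * u * y⁻¹} : Set H)) e =
      lnum ((Subgroup.centralizer ({u} : Set H)).map (MulAut.conj y).toMonoidHom) e := by rw [h1]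
    _ = lnum (Subgroup.centralizer ({u} : Set H)) e := h2.symm

open Classical in
/-- The sum of the orders of the centralisers over a class. -/
theorem class_sum [Fintype H] (u0 : H) :
    ∑ u ∈ Finset.univ.filter (fun u : H => ConjClasses.mk u = ConjClasses.mk u0),
      Nat.card (Subgroup.centralizer ({u} : Set H)) = Nat.card H := by
  have h1 : ∀ u ∈ Finset.univ.filter (fun u : H => ConjClasses.mk u = ConjClasses.mk u0),
      Nat.card (Subgroup.centralizer ({u} : Set H)) =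
        (Finset.univ.filter (fun y : H => y * u0 * y⁻¹ = u)).card := by
    intro u hu
    rw [Finset.mem_filter] at hu
    obtain ⟨y, hy⟩ := isConj_iff.1 (ConjClasses.mk_eq_mk_iff_isConj.1 hu.2.symm)
    rw [Nat.card_eq_fintype_card, ← Finset.card_univ]
    refine Finset.card_bij (fun (t : Subgroup.centralizer ({u} : Set H)) _ => (t : H) * y) ?_ ?_ ?_
    · intro t _
      rw [Finset.mem_filter]
      refine ⟨Finset.mem_univ _, ?_⟩
      have ht : (t : H) * u = u * t := Subgroup.mem_centralizer_singleton_iff.1 t.2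
      calc (t : H) * y * u0 * ((t : H) * y)⁻¹ = t * (y * u0 * y⁻¹) * (t : H)⁻¹ := by group
        _ = t * u * (t : H)⁻¹ := by rw [hy]
        _ = u := by rw [ht]; group
    · intro s _ t _ h
      exact Subtype.ext (mul_right_cancel h)
    · intro z hz
      rw [Finset.mem_filter] at hz
      refine ⟨⟨z * y⁻¹, ?_⟩, Finset.mem_univ _, inv_mul_cancel_right z y⟩
      rw [Subgroup.mem_centralizer_singleton_iff]
      calc z * y⁻¹ * u = z * y⁻¹ * (y * u0 * y⁻¹) := by rw [hy]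
        _ = (z * u0 * z⁻¹) * (z * y⁻¹) := by group
        _ = u * (z * y⁻¹) := by rw [hz.2]
  rw [Finset.sum_congr rfl h1, Nat.card_eq_fintype_card, ← Finset.card_univ]
  symm
  apply Finset.card_eq_sum_card_fiberwise
  intro y _
  rw [Finset.coe_filter]
  refine ⟨Finset.mem_univ _, ?_⟩
  rw [eq_comm, ConjClasses.mk_eq_mk_iff_isConj]
  exact isConj_iff.2 ⟨y, rfl⟩

/-- SMT: the second main theorem as a formula for ranks. -/
theorem smt : SmtStmt := by
  classical
  intro ℓ F _ hF H _ _ e he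
  obtain ⟨M, -, hq⟩ := Pool.Agent.PP.H74.exists_power H hF.prime 0
  have hq' : Proj ℓ (ℓ ^ M) H := hq
  have hJ : Fintype (JJ ℓ H) := Fintype.ofFinite _
  have hrnk := Pool.Agent.PP.H74.rnk Pool.Agent.PP.H20.ibf Pool.Agent.PP.H20.eig
    (Pool.Agent.PP.H74.brt Pool.Agent.PP.H20.ibf Pool.Agent.PP.H20.ibc
    Pool.Agent.PP.H20.ibj Pool.Agent.PP.H20.ibn)
  rw [rank_sum hF hq' he, Finset.mul_sum]
  have h1 : ∀ j : JJ ℓ H, Nat.card H * rk
      (fun t : Subgroup.centralizer ({rp j} : Set H) => e t)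
        (TT F (Subgroup.centralizer ({rp j} : Set H)) ℓ) =
      ∑ u ∈ Finset.univ.filter (fun u : H => ConjClasses.mk u = j.1),
        Nat.card (Subgroup.centralizer ({u} : Set H)) *
          lnum (Subgroup.centralizer ({u} : Set H)) e := by
    intro j
    have h2 : rk (fun t : Subgroup.centralizer ({rp j} : Set H) => e t)
        (TT F (Subgroup.centralizer ({rp j} : Set H)) ℓ) =
        lnum (Subgroup.centralizer ({rp j} : Set H)) e :=
      hrnk ℓ F hF _ _ (idem_cent hF he (rp_pow j))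
    rw [h2, ← class_sum (rp j), Finset.sum_mul, mk_rp]
    apply Finset.sum_congr rfl
    intro u hu
    rw [Finset.mem_filter, ← mk_rp] at hu
    obtain ⟨y, hy⟩ := isConj_iff.1 (ConjClasses.mk_eq_mk_iff_isConj.1 hu.2.symm)
    rw [← hy, lnum_conj he.1]
  rw [Finset.sum_congr rfl (fun j _ => h1 j)]
  rw [← Finset.sum_fiberwise_of_maps_to (s := Finset.univ.filter
    (fun u : H => ∃ n : ℕ, u ^ ℓ ^ n = 1))
    (t := (Finset.univ : Finset (JJ ℓ H)).image (fun j => j.1)) (g := fun u => ConjClasses.mk u)]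
  · rw [Finset.sum_image (g := fun j : JJ ℓ H => j.1) (fun a _ b _ h => Subtype.ext h)]
    apply Finset.sum_congr rfl
    intro j _
    apply Finset.sum_congr _ (fun _ _ => rfl)
    ext u
    rw [Finset.mem_filter, Finset.mem_filter, Finset.mem_filter]
    constructor
    · rintro ⟨_, hu⟩
      refine ⟨⟨Finset.mem_univ _, ?_⟩, hu⟩
      rw [← mk_rp] at hu
      obtain ⟨y, hy⟩ := isConj_iff.1 (ConjClasses.mk_eq_mk_iff_isConj.1 hu.symm)
      obtain ⟨n, hn⟩ := rp_pow j
      refine ⟨n, ?_⟩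
      rw [← hy, conj_pow, hn]
      group
    · rintro ⟨_, hu⟩
      exact ⟨Finset.mem_univ _, hu⟩
  · intro u hu
    rw [Finset.mem_filter] at hu
    obtain ⟨j, y, hy⟩ := exists_rp hu.2
    rw [Finset.mem_image]
    refine ⟨j, Finset.mem_univ _, ?_⟩
    rw [← mk_rp, ConjClasses.mk_eq_mk_iff_isConj]
    exact isConj_iff.2 ⟨y, hy⟩

end Pool.Agent.PP.H63
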