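import Pool.Agent.Helper67_PP.Stmts

/-!
# Squad PP, module STR: the structure of `D = E / K`
-/

open scoped BigOperators

set_option linter.unusedSectionVars false

noncomputable section

namespace Pool.Agent.PP.H63

open Pool.Agent.PP Pool.Agent.Helper51_AWC Pool.Agent.Helper79_WRA

section simple

variable {A S B : Type} [Group A] [Group S] [Group B]

theorem center_simple (hS : NASimple S) : Subgroup.center S = ⊥ := by
  obtain ⟨hs, x, y, hxy⟩ := hS
  rcases hs.eq_bot_or_eq_top_of_normal (Subgroup.center S) inferInstance with h | h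
  · exact h
  · exfalso
    apply hxy
    have : y ∈ Subgroup.center S := by rw [h]; exact Subgroup.mem_top y
    exact Subgroup.mem_center_iff.1 this x

/-- A homomorphism with commuting values which kills the kernel of a surjection onto a nonabelian
simple group is trivial. -/
theorem hom_trivial (hS : NASimple S) (ψ : A →* S) (hψ : Function.Surjective ψ) (μ : A →* B)
    (hker : ψ.ker ≤ μ.ker) (hcomm : ∀ a b : A, μ a * μ b = μ b * μ a) (a : A) : μ a = 1 := by
  obtain ⟨hs, x, y, hxy⟩ := hS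
  have hn : (μ.ker.map ψ).Normal := Subgroup.Normal.map inferInstance ψ hψ
  rcases hs.eq_bot_or_eq_top_of_normal (μ.ker.map ψ) hn with h | h
  · exfalso
    obtain ⟨c, rfl⟩ := hψ x
    obtain ⟨d, rfl⟩ := hψ y
    have h1 : c * d * c⁻¹ * d⁻¹ ∈ μ.ker := by
      rw [MonoidHom.mem_ker, map_mul, map_mul, map_mul, map_inv, map_inv, hcomm c d]
      group
    have h2 : ψ (c * d * c⁻¹ * d⁻¹) ∈ μ.ker.map ψ := ⟨_, h1, rfl⟩
    rw [h, Subgroup.mem_bot, map_mul, map_mul, map_mul, map_inv, map_inv] at h2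
    apply hxy
    calc ψ c * ψ d = (ψ c * ψ d * (ψ c)⁻¹ * (ψ d)⁻¹) * (ψ d * ψ c) := by group
      _ = ψ d * ψ c := by rw [h2, one_mul]
  · have h1 : ψ a ∈ μ.ker.map ψ := by rw [h]; exact Subgroup.mem_top _
    obtain ⟨k, hk, hka⟩ := h1
    have h2 : a * k⁻¹ ∈ ψ.ker := by
      rw [MonoidHom.mem_ker, map_mul, map_inv, hka, mul_inv_cancel]
    have h3 := hker h2
    rw [MonoidHom.mem_ker, map_mul, map_inv] at h3
    have h4 : μ k = 1 := hk
    rw [h4, inv_one, mul_one] at h3
    exact h3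

/-- Two surjections with the same kernel have isomorphic images. -/
theorem equiv_of_ker (f : A →* S) (g : A →* B) (hf : Function.Surjective f)
    (hg : Function.Surjective g) (h : f.ker = g.ker) : Nonempty (S ≃* B) :=
  ⟨((QuotientGroup.quotientKerEquivOfSurjective f hf).symm.trans
    (QuotientGroup.quotientMulEquivOfEq h)).trans
      (QuotientGroup.quotientKerEquivOfSurjective g hg)⟩

end simple

/-- STR: the structure of `D = E / K`. -/
theorem str : Pool.Agent.PP.H67.StrStmt := by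
  intro ℓ hℓ G E _ _ _ _ N hN hcore hS hNil p K _ hNp hCp hcen hprime hKC hKp
  set C := Subgroup.centralizer (N : Set G) with hC
  set M := N.comap p with hM
  have hMn : M.Normal := Subgroup.Normal.comap hN p
  -- the quotient map onto the simple group
  let πN : N →* N ⧸ (Subgroup.center G).subgroupOf N :=
    QuotientGroup.mk' ((Subgroup.center G).subgroupOf N)
  have hπ : Function.Surjective πN := QuotientGroup.mk'_surjective _
  have hπker : ∀ n : N, πN n = 1 ↔ (n : G) ∈ Subgroup.center G := by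
    intro n
    rw [QuotientGroup.mk'_apply, QuotientGroup.eq_one_iff, Subgroup.mem_subgroupOf]
  have hcS := center_simple hS
  -- the centre of `N` is central
  have hCN : ∀ x ∈ N, x ∈ C → x ∈ Subgroup.center G := by
    intro x hx hxC
    rw [← hπker ⟨x, hx⟩]
    have h1 : πN ⟨x, hx⟩ ∈ Subgroup.center (N ⧸ (Subgroup.center G).subgroupOf N) := by
      rw [Subgroup.mem_center_iff]
      intro s
      obtain ⟨n, rfl⟩ := hπ s
      rw [← map_mul, ← map_mul]
      congr 1
      exact Subtype.ext ((Subgroup.mem_centralizer_iff.1 hxC n n.2))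
    rwa [hcS, Subgroup.mem_bot] at h1
  -- no elements of order `ℓ`
  have hl : ∀ x ∈ N, x ∈ Subgroup.center G → x ^ ℓ = 1 → x = 1 := by
    intro x hx hxc hxl
    have h1 : Subgroup.zpowers (⟨x, hx⟩ : N) ≤ opCore ℓ N := by
      apply le_sSup
      refine ⟨⟨?_⟩, ?_⟩
      · rintro _ ⟨k, rfl⟩ g
        have h2 : g * (⟨x, hx⟩ : N) ^ k * g⁻¹ = (⟨x, hx⟩ : N) ^ k := by
          have h3 : Commute g (⟨x, hx⟩ : N) :=
            Subtype.ext (Subgroup.mem_center_iff.1 hxc g)
          rw [(h3.zpow_right k).eq, mul_inv_cancel_right]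
        change g * (⟨x, hx⟩ : N) ^ k * g⁻¹ ∈ _
        rw [h2]
        exact ⟨k, rfl⟩
      · rintro ⟨_, k, rfl⟩
        refine ⟨1, Subtype.ext ?_⟩
        change ((⟨x, hx⟩ : N) ^ k) ^ ℓ ^ 1 = 1
        rw [pow_one, ← zpow_natCast, ← zpow_mul, mul_comm, zpow_mul, zpow_natCast]
        have h4 : (⟨x, hx⟩ : N) ^ ℓ = 1 := Subtype.ext hxl
        rw [h4, one_zpow]
    rw [hcore] at h1
    have h2 := h1 (Subgroup.mem_zpowers _)
    rw [Subgroup.mem_bot] at h2
    exact congrArg Subtype.val h2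
  have hKz : ∀ x ∈ K, p x = 1 → x = 1 := by
    intro x hx hpx
    have h1 : x ∈ K ⊓ p.ker := ⟨hx, hpx⟩
    rwa [hKp, Subgroup.mem_bot] at h1
  have hpK : ∀ x ∈ K, p x ∈ C := by
    intro x hx
    rw [← hKC]
    exact ⟨x, hx, rfl⟩
  -- (2)
  have h2a : ∀ k ∈ K, ∀ m ∈ M, k * m = m * k := by
    intro k hk m hm
    have h1 : k * m * k⁻¹ * m⁻¹ ∈ K := by
      have h2 : k * (m * k⁻¹ * m⁻¹) ∈ K :=
        K.mul_mem hk (Subgroup.Normal.conj_mem ‹_› _ (K.inv_mem hk) m)
      have h3 : k * m * k⁻¹ * m⁻¹ = k * (m * k⁻¹ * m⁻¹) := by group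
      rw [h3]
      exact h2
    have h4 : p (k * m * k⁻¹ * m⁻¹) = 1 := by
      have h5 : p m * p k = p k * p m := Subgroup.mem_centralizer_iff.1 (hpK k hk) _ hm
      rw [map_mul, map_mul, map_mul, map_inv, map_inv, ← h5]
      group
    have h6 := hKz _ h1 h4
    calc k * m = (k * m * k⁻¹ * m⁻¹) * (m * k) := by group
      _ = m * k := by rw [h6, one_mul]
  have h2b : ¬ ℓ ∣ Nat.card (K ⊓ M : Subgroup E) := by
    intro hdvd
    obtain ⟨x, hx⟩ := exists_prime_orderOf_dvd_card' ℓ hdvd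
    have hx1 : (x : E) ^ ℓ = 1 := by
      rw [← hx]
      exact congrArg Subtype.val (pow_orderOf_eq_one x)
    have hx2 : p x = 1 := by
      apply hl _ x.2.2 (hCN _ x.2.2 (hpK _ x.2.1))
      rw [← map_pow, hx1, map_one]
    have hx3 : (x : E) = 1 := hKz _ x.2.1 hx2
    have hx4 : x = 1 := Subtype.ext hx3
    rw [hx4, orderOf_one] at hx
    exact hℓ.out.one_lt.ne hx
  -- the quotient
  set q : E →* E ⧸ K := QuotientGroup.mk' K with hqdef
  have hq : Function.Surjective q := QuotientGroup.mk'_surjective K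
  have hq1 : ∀ x y : E, q x = q y ↔ x⁻¹ * y ∈ K := fun x y => QuotientGroup.eq
  have hqK : ∀ x ∈ K, q x = 1 := fun x hx => (QuotientGroup.eq_one_iff x).2 hx
  have hWc : p.ker.map q ≤ Subgroup.center (E ⧸ K) := by
    rintro _ ⟨z, hz, rfl⟩
    rw [Subgroup.mem_center_iff]
    intro y
    obtain ⟨x, rfl⟩ := hq y
    rw [← map_mul, ← map_mul, Subgroup.mem_center_iff.1 (hcen z hz) x]
  -- an element which acts trivially modulo the centre acts trivially
  have hact : ∀ g : G, (∀ n ∈ N, g * n * g⁻¹ * n⁻¹ ∈ Subgroup.center G) → g ∈ C := by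
    intro g hg
    let μ : N →* G :=
      { toFun := fun n => g * n * g⁻¹ * (n : G)⁻¹
        map_one' := by simp
        map_mul' := by
          intro a b
          have h1 := Subgroup.mem_center_iff.1 (hg b b.2)
          change g * (a * b) * g⁻¹ * ((a : G) * b)⁻¹ =
            g * a * g⁻¹ * (a : G)⁻¹ * (g * b * g⁻¹ * (b : G)⁻¹)
          calc g * (a * b) * g⁻¹ * ((a : G) * b)⁻¹ =
              g * a * g⁻¹ * ((g * b * g⁻¹ * (b : G)⁻¹) * (a : G)⁻¹) := by group
            _ = g * a * g⁻¹ * ((a : G)⁻¹ * (g * b * g⁻¹ * (b : G)⁻¹)) := by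
              rw [h1 (a : G)⁻¹]
            _ = _ := by group }
    have h1 : ∀ n : N, μ n = 1 := by
      apply hom_trivial hS πN hπ μ
      · intro n hn
        have h2 := Subgroup.mem_center_iff.1 ((hπker n).1 hn) g
        change g * n * g⁻¹ * (n : G)⁻¹ = 1
        rw [h2]
        group
      · intro a b
        exact (Subgroup.mem_center_iff.1 (hg b b.2) _)
    rw [hC, Subgroup.mem_centralizer_iff]
    intro n hn
    have h2 : g * n * g⁻¹ * n⁻¹ = 1 := h1 ⟨n, hn⟩
    calc n * g = (g * n * g⁻¹ * n⁻¹)⁻¹ * (g * n) := by group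
      _ = g * n := by rw [h2, inv_one, one_mul]
  have hcentM : Subgroup.centralizer ((M.map q : Subgroup (E ⧸ K)) : Set (E ⧸ K)) ≤
      p.ker.map q := by
    intro y hy
    obtain ⟨x, rfl⟩ := hq y
    have h1 : p x ∈ C := by
      apply hact
      intro n hn
      obtain ⟨m, rfl⟩ := hNp hn
      have h2 : q m * q x = q x * q m := Subgroup.mem_centralizer_iff.1 hy _ ⟨m, hn, rfl⟩
      have h3 : x * m * x⁻¹ * m⁻¹ ∈ K := by
        rw [← QuotientGroup.eq_one_iff]
        change q (x * m * x⁻¹ * m⁻¹) = 1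
        rw [map_mul, map_mul, map_mul, map_inv, map_inv, ← h2]
        group
      have h4 : p x * p m * (p x)⁻¹ * (p m)⁻¹ ∈ C := by
        have := hpK _ h3
        rwa [map_mul, map_mul, map_mul, map_inv, map_inv] at this
      exact hCN _ (N.mul_mem (hN.conj_mem _ hn _) (N.inv_mem hn)) h4
    rw [← hKC] at h1
    obtain ⟨k, hk, hkx⟩ := h1
    refine ⟨k⁻¹ * x, ?_, ?_⟩
    · change p (k⁻¹ * x) = 1
      rw [map_mul, map_inv, hkx, inv_mul_cancel]
    · rw [map_mul, map_inv, hqK k hk, inv_one, one_mul]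
  have hcc : Subgroup.center (E ⧸ K) ≤
      Subgroup.centralizer ((M.map q : Subgroup (E ⧸ K)) : Set (E ⧸ K)) :=
    Subgroup.center_le_centralizer _
  have hZW : Subgroup.center (E ⧸ K) = p.ker.map q := le_antisymm (hcc.trans hcentM) hWc
  have hCZ : Subgroup.centralizer ((M.map q : Subgroup (E ⧸ K)) : Set (E ⧸ K)) =
      Subgroup.center (E ⧸ K) := le_antisymm (hcentM.trans hWc) hcc
  have hZp : ¬ ℓ ∣ Nat.card (Subgroup.center (E ⧸ K)) := by
    rw [hZW]
    intro h
    exact hprime (h.trans (Subgroup.card_map_dvd _ _))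
  have hZM : Subgroup.center (E ⧸ K) ≤ M.map q := by
    rw [hZW]
    apply Subgroup.map_mono
    intro z hz
    have h1 : p z = 1 := hz
    change p z ∈ N
    rw [h1]
    exact N.one_mem
  have hMn' : (M.map q).Normal := Subgroup.Normal.map hMn q hq
  -- the surjection of the image of `M` onto the simple group
  let qM : M →* M.map q := q.subgroupMap M
  have hqM : Function.Surjective qM := q.subgroupMap_surjective M
  let pM : M →* N := p.subgroupComap N
  have hpM : Function.Surjective pM := by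
    intro n
    obtain ⟨m, hm⟩ := hNp n.2
    exact ⟨⟨m, by change p m ∈ N; rw [hm]; exact n.2⟩, Subtype.ext hm⟩
  have hker : qM.ker ≤ (πN.comp pM).ker := by
    intro m hm
    have h1 : q m = 1 := congrArg Subtype.val hm
    have h2 : (m : E) ∈ K := (QuotientGroup.eq_one_iff _).1 h1
    change πN (pM m) = 1
    rw [hπker]
    exact hCN _ m.2 (hpK _ h2)
  let ψ : M.map q →* N ⧸ (Subgroup.center G).subgroupOf N :=
    qM.liftOfSurjective hqM ⟨πN.comp pM, hker⟩
  have hψ : ∀ m : M, ψ (qM m) = πN (pM m) := fun m =>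
    MonoidHom.liftOfRightInverse_comp_apply qM _ _ ⟨πN.comp pM, hker⟩ m
  have hψs : Function.Surjective ψ := by
    intro s
    obtain ⟨n, rfl⟩ := hπ s
    obtain ⟨m, rfl⟩ := hpM n
    exact ⟨qM m, hψ m⟩
  have hψker : ∀ y : M.map q, ψ y = 1 ↔ (y : E ⧸ K) ∈ Subgroup.center (E ⧸ K) := by
    intro y
    obtain ⟨m, rfl⟩ := hqM y
    rw [hψ, hπker]
    change p m ∈ Subgroup.center G ↔ q m ∈ Subgroup.center (E ⧸ K)
    constructor
    · intro h
      have h1 : p m ∈ C := Subgroup.center_le_centralizer _ h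
      rw [← hKC] at h1
      obtain ⟨k, hk, hkm⟩ := h1
      rw [hZW]
      refine ⟨k⁻¹ * m, ?_, ?_⟩
      · change p (k⁻¹ * m) = 1
        rw [map_mul, map_inv, hkm, inv_mul_cancel]
      · rw [map_mul, map_inv, hqK k hk, inv_one, one_mul]
    · intro h
      rw [hZW] at h
      obtain ⟨z, hz, hzm⟩ := h
      have hz1 : p z = 1 := hz
      have h1 := (hq1 z m).1 hzm
      have h2 := hpK _ h1
      rw [map_mul, map_inv, hz1, inv_one, one_mul] at h2
      exact hCN _ m.2 h2
  -- an `ℓ`-subgroup of the centre is trivial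
  have hZl : ∀ O : Subgroup (E ⧸ K), IsPGroup ℓ O → O ≤ Subgroup.center (E ⧸ K) → O = ⊥ := by
    intro O hO hOZ
    have h1 : Nat.card O ∣ Nat.card (Subgroup.center (E ⧸ K)) := Subgroup.card_dvd_of_le hOZ
    obtain ⟨n, hn⟩ := IsPGroup.iff_card.1 hO
    rw [← Subgroup.card_eq_one]
    rcases Nat.eq_zero_or_pos n with rfl | hpos
    · rw [hn, pow_zero]
    · exfalso
      apply hZp
      rw [hn] at h1
      exact (dvd_pow_self ℓ hpos.ne').trans h1
  have hcoreD : opCore ℓ (E ⧸ K) = ⊥ := by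
    rw [eq_bot_iff]
    apply sSup_le
    rintro O ⟨hOn, hO⟩
    rw [le_bot_iff]
    -- the intersection with the image of `M`
    have h1 : O ⊓ M.map q ≤ Subgroup.center (E ⧸ K) := by
      let O' : Subgroup (M.map q) := O.subgroupOf (M.map q)
      have hO'n : O'.Normal := Subgroup.Normal.subgroupOf hOn _
      have hO' : IsPGroup ℓ O' := hO.comap_of_injective (M.map q).subtype
        (M.map q).subtype_injective
      have hn : (O'.map ψ).Normal := Subgroup.Normal.map hO'n ψ hψs
      have hbot : O'.map ψ = ⊥ := by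
        rcases hS.1.eq_bot_or_eq_top_of_normal _ hn with h | h
        · exact h
        · exfalso
          have h2 : IsPGroup ℓ (O'.map ψ) := hO'.map ψ
          rw [h] at h2
          have h3 : IsPGroup ℓ (N ⧸ (Subgroup.center G).subgroupOf N) := by
            intro s
            obtain ⟨k, hk⟩ := h2 ⟨s, Subgroup.mem_top s⟩
            exact ⟨k, congrArg Subtype.val hk⟩
          have hnt : Nontrivial (N ⧸ (Subgroup.center G).subgroupOf N) := hS.1.toNontrivial
          have h4 := h3.center_nontrivial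
          rw [hcS] at h4
          exact not_subsingleton _ (inferInstance : Subsingleton (⊥ : Subgroup
            (N ⧸ (Subgroup.center G).subgroupOf N)))
      intro y hy
      have h5 : ψ ⟨y, hy.2⟩ ∈ O'.map ψ := ⟨_, Subgroup.mem_subgroupOf.2 hy.1, rfl⟩
      rw [hbot, Subgroup.mem_bot, hψker] at h5
      exact h5
    have h2 : O ⊓ M.map q = ⊥ := by
      apply hZl _ _ h1
      exact hO.to_le inf_le_left
    have h3 : O ≤ Subgroup.center (E ⧸ K) := by
      rw [← hCZ]
      intro o ho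
      rw [Subgroup.mem_centralizer_iff]
      intro m hm
      have h4 : m * o * m⁻¹ * o⁻¹ ∈ O ⊓ M.map q := by
        refine ⟨O.mul_mem (hOn.conj_mem _ ho m) (O.inv_mem ho), ?_⟩
        have h5 : m * o * m⁻¹ * o⁻¹ = m * (o * m⁻¹ * o⁻¹) := by group
        rw [h5]
        exact (M.map q).mul_mem hm (hMn'.conj_mem _ ((M.map q).inv_mem hm) o)
      rw [h2, Subgroup.mem_bot] at h4
      calc m * o = (m * o * m⁻¹ * o⁻¹) * (o * m) := by group
        _ = o * m := by rw [h4, one_mul]
    exact hZl O hO h3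
  have hmu : mu (M.map q) = mu N := by
    unfold mu Subgroup.relIndex
    have h1 : (Subgroup.center (E ⧸ K)).subgroupOf (M.map q) = ψ.ker := by
      ext y
      rw [Subgroup.mem_subgroupOf, MonoidHom.mem_ker, hψker]
    rw [h1, Subgroup.index_ker, MonoidHom.range_eq_top.2 hψs, Subgroup.card_top,
      Subgroup.index_eq_card]
  refine ⟨h2a, h2b, hcoreD, ?_, hZW, hMn', hCZ, hZp, hZM, hmu⟩
  -- the group `D / Z(D)`
  let r : E ⧸ K →* (E ⧸ K) ⧸ Subgroup.center (E ⧸ K) :=
    QuotientGroup.mk' (Subgroup.center (E ⧸ K))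
  have hr : Function.Surjective r := QuotientGroup.mk'_surjective _
  have hr1 : ∀ y, r y = 1 ↔ y ∈ Subgroup.center (E ⧸ K) := fun y => QuotientGroup.eq_one_iff y
  refine ⟨(M.map q).map r, Subgroup.Normal.map hMn' r hr, ?_, ?_, ?_⟩
  · rw [eq_bot_iff]
    intro d hd
    obtain ⟨y, rfl⟩ := hr d
    rw [Subgroup.mem_bot, hr1, ← hCZ, Subgroup.mem_centralizer_iff]
    have h1 : ∀ m ∈ M.map q, y * m * y⁻¹ * m⁻¹ ∈ Subgroup.center (E ⧸ K) := by
      intro m hm
      rw [← hr1, map_mul, map_mul, map_mul, map_inv, map_inv,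
        ← Subgroup.mem_centralizer_iff.1 hd (r m) ⟨m, hm, rfl⟩]
      group
    let μ : M.map q →* E ⧸ K :=
      { toFun := fun n => y * n * y⁻¹ * (n : E ⧸ K)⁻¹
        map_one' := by simp
        map_mul' := by
          intro a b
          have h2 := Subgroup.mem_center_iff.1 (h1 b b.2)
          change y * (a * b) * y⁻¹ * ((a : E ⧸ K) * b)⁻¹ =
            y * a * y⁻¹ * (a : E ⧸ K)⁻¹ * (y * b * y⁻¹ * (b : E ⧸ K)⁻¹)
          calc y * (a * b) * y⁻¹ * ((a : E ⧸ K) * b)⁻¹ =
              y * a * y⁻¹ * ((y * b * y⁻¹ * (b : E ⧸ K)⁻¹) * (a : E ⧸ K)⁻¹) := by group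
            _ = y * a * y⁻¹ * ((a : E ⧸ K)⁻¹ * (y * b * y⁻¹ * (b : E ⧸ K)⁻¹)) := by
              rw [h2 (a : E ⧸ K)⁻¹]
            _ = _ := by group }
    have h3 : ∀ n : M.map q, μ n = 1 := by
      apply hom_trivial hS ψ hψs μ
      · intro n hn
        have h2 := Subgroup.mem_center_iff.1 ((hψker n).1 hn) y
        change y * n * y⁻¹ * (n : E ⧸ K)⁻¹ = 1
        rw [h2]
        group
      · intro a b
        exact (Subgroup.mem_center_iff.1 (h1 b b.2) _)
    intro n hn
    have h2 : y * n * y⁻¹ * n⁻¹ = 1 := h3 ⟨n, hn⟩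
    calc n * y = (y * n * y⁻¹ * n⁻¹)⁻¹ * (y * n) := by group
      _ = y * n := by rw [h2, inv_one, one_mul]
  · refine equiv_of_ker (r.subgroupMap (M.map q)) ψ (r.subgroupMap_surjective _) hψs ?_
    ext y
    rw [MonoidHom.mem_ker, MonoidHom.mem_ker, hψker, ← hr1]
    constructor
    · intro h
      exact congrArg Subtype.val h
    · intro h
      exact Subtype.ext h
  · obtain ⟨n, hn⟩ := hNil
    refine ⟨n, ?_⟩
    have h1 : ((⊤ : Subgroup E).lowerCentralSeries n).map (r.comp q) =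
        (⊤ : Subgroup ((E ⧸ K) ⧸ Subgroup.center (E ⧸ K))).lowerCentralSeries n := by
      rw [Subgroup.map_lowerCentralSeries, Subgroup.map_top_of_surjective]
      exact hr.comp hq
    rw [← h1]
    rintro _ ⟨x, hx, rfl⟩
    have h2 := hn (lcs_mem p hx)
    rw [Subgroup.mem_sup_of_normal_left] at h2
    obtain ⟨a, ha, c, hc, hac⟩ := h2
    obtain ⟨m, rfl⟩ := hNp ha
    rw [← hC, ← hKC] at hc
    obtain ⟨k, hk, rfl⟩ := hc
    refine ⟨q x, ?_, rfl⟩
    have h3 : (m * k)⁻¹ * x ∈ p.ker := by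
      rw [MonoidHom.mem_ker, map_mul, map_inv, map_mul, hac, inv_mul_cancel]
    have h4 : q x = q m * q ((m * k)⁻¹ * x) := by
      rw [map_mul, map_inv, map_mul, hqK k hk, mul_one, mul_inv_cancel_left]
    rw [h4]
    refine (M.map q).mul_mem ⟨m, ha, rfl⟩ (hZM ?_)
    rw [hZW]
    exact ⟨_, h3, rfl⟩

end Pool.Agent.PP.H63
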