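import Pool.Agent.Helper36_PP.StmtsCY

/-!
# Squad PP, part CY, module EXK: a constituent of the fixed points outside the norm
-/

open scoped BigOperators

noncomputable section

namespace Pool.Agent.PP.H63

open Pool.Agent.Helper51_AWC Pool.Agent.Helper79_WRA

section abs

variable {F : Type} [Field F] [IsAlgClosed F]

/-- Burnside -/
theorem burnside {R T : Type} [Ring R] [Algebra F R] [AddCommGroup T] [Module F T] [Module R T]
    [IsScalarTower F R T] [IsSimpleModule R T] [FiniteDimensional F T] (f : T →ₗ[F] T) :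
    ∃ r : R, ∀ t, f t = r • t := by
  classical
  have hb := IsSimpleModule.algebraMap_end_bijective_of_isAlgClosed (A := R) (V := T) F
  let f' : Module.End (Module.End R T) T :=
    { toFun := f
      map_add' := map_add f
      map_smul' := by
        intro g x
        obtain ⟨c, rfl⟩ := hb.2 g
        exact map_smul f c x }
  let b := Module.finBasis F T
  obtain ⟨r, hr⟩ := jacobson_density f' (Finset.univ.image b)
  refine ⟨r, fun t => ?_⟩
  have h1 : f = Algebra.lsmul F F T r := by
    apply b.ext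
    intro i
    exact hr (b i) (Finset.mem_image_of_mem _ (Finset.mem_univ i))
  rw [h1]
  rfl

/-- a simple constituent outside `W` -/
theorem exk_abs {Q U : Type} [Group Q] [Finite Q] [NeZero (Nat.card Q : F)] [AddCommGroup U]
    [Module F U] [FiniteDimensional F U] (τ : Representation F Q U) (W : Submodule F U)
    (hW : ∀ q, ∀ v ∈ W, τ q v ∈ W) (hne : W ≠ ⊤) :
    ∃ (m : ℕ) (κ : Q →* Matrix (Fin m) (Fin m) F) (ι : (Fin m → F) →ₗ[F] U), IsIrr κ ∧
      (∀ q w, ι ((κ q).mulVec w) = τ q (ι w)) ∧ ∃ w, ι w ∉ W := by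
  classical
  let R := MonoidAlgebra F Q
  let M := τ.asModule
  let e : M ≃ₗ[F] U := τ.asModuleEquiv
  let W' : Submodule R M :=
    Subrepresentation.subrepresentationSubmoduleOrderIso ⟨W, fun q v hv => hW q v hv⟩
  have hW' : ∀ x : M, x ∈ W' ↔ e x ∈ W := fun x => Iff.rfl
  obtain ⟨q, hq⟩ := MonoidAlgebra.Submodule.exists_isCompl W'
  have hq0 : q ≠ ⊥ := by
    rintro rfl
    have h1 : W' = ⊤ := eq_top_of_isCompl_bot hq
    apply hne
    rw [eq_top_iff]
    intro u _
    have h2 : e.symm u ∈ W' := by rw [h1]; trivial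
    rw [hW'] at h2
    simpa using h2
  obtain ⟨T, hT, hTq⟩ := (eq_bot_or_exists_atom_le q).resolve_left hq0
  have hTs : IsSimpleModule R T := isSimpleModule_iff_isAtom.2 hT
  have : FiniteDimensional F M := inferInstanceAs (FiniteDimensional F U)
  have : FiniteDimensional F T := FiniteDimensional.of_injective
    (T.subtype.restrictScalars F) (Subtype.val_injective)
  have : Nontrivial T := IsSimpleModule.nontrivial R T
  let b := Module.finBasis F T
  let Ψ : R →ₐ[F] Matrix (Fin (Module.finrank F T)) (Fin (Module.finrank F T)) F :=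
    (LinearMap.toMatrixAlgEquiv b).toAlgHom.comp (Algebra.lsmul F F T)
  let κ : Q →* Matrix (Fin (Module.finrank F T)) (Fin (Module.finrank F T)) F :=
    (Ψ : R →* _).comp (MonoidAlgebra.of F Q)
  have hΨ : Function.Surjective Ψ := by
    intro X
    obtain ⟨r, hr⟩ := burnside (R := R) ((LinearMap.toMatrixAlgEquiv b).symm X)
    refine ⟨r, ?_⟩
    have h1 : Algebra.lsmul F F T r = (LinearMap.toMatrixAlgEquiv b).symm X := by
      apply LinearMap.ext
      intro t
      exact (hr t).symm
    change LinearMap.toMatrixAlgEquiv b (Algebra.lsmul F F T r) = X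
    rw [h1]
    exact (LinearMap.toMatrixAlgEquiv b).apply_symm_apply X
  have hspan : Submodule.span F (Set.range κ) = ⊤ := by
    rw [eq_top_iff]
    rintro X -
    obtain ⟨r, rfl⟩ := hΨ X
    induction r using MonoidAlgebra.induction_on with
    | of g => exact Submodule.subset_span ⟨g, rfl⟩
    | add f g hf hg => rw [map_add]; exact Submodule.add_mem _ hf hg
    | smul c f hf => rw [map_smul]; exact Submodule.smul_mem _ _ hf
  let ι : (Fin (Module.finrank F T) → F) →ₗ[F] U :=
    e.toLinearMap ∘ₗ (T.subtype.restrictScalars F) ∘ₗ b.equivFun.symm.toLinearMap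
  refine ⟨Module.finrank F T, κ, ι, ⟨Module.finrank_pos, hspan⟩, ?_, ?_⟩
  · intro q w
    set t : T := b.equivFun.symm w with ht
    have h1 : (κ q).mulVec w = b.equivFun ((MonoidAlgebra.of F Q q : R) • t) := by
      change (LinearMap.toMatrixAlgEquiv b (Algebra.lsmul F F T (MonoidAlgebra.of F Q q))).mulVec w
        = _
      have h2 : w = b.equivFun t := by rw [ht, LinearEquiv.apply_symm_apply]
      rw [h2]
      exact LinearMap.toMatrix_mulVec_repr b b _ t
    have h3 : ι ((κ q).mulVec w) = e (((MonoidAlgebra.of F Q q : R) • t : T) : M) := by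
      rw [h1]
      change e ((b.equivFun.symm (b.equivFun _) : T) : M) = _
      rw [LinearEquiv.symm_apply_apply]
    rw [h3]
    change e ((MonoidAlgebra.of F Q q : R) • (t : M)) = τ q (e (t : M))
    change τ.asModuleEquiv ((MonoidAlgebra.of F Q q : R) • (t : M)) = _
    rw [Representation.asModuleEquiv_map_smul, Representation.asAlgebraHom_of]
  · obtain ⟨t, ht⟩ := exists_ne (0 : T)
    refine ⟨b.equivFun t, fun hmem => ht ?_⟩
    have h1 : ι (b.equivFun t) = e (t : M) := by
      change e ((b.equivFun.symm (b.equivFun t) : T) : M) = _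
      rw [LinearEquiv.symm_apply_apply]
    rw [h1] at hmem
    have h2 : (t : M) ∈ W' := (hW' _).2 hmem
    have h3 : (t : M) ∈ W' ⊓ q := ⟨h2, hTq t.2⟩
    rw [hq.inf_eq_bot] at h3
    exact Subtype.ext ((Submodule.mem_bot R).1 h3)

end abs

theorem exk : ExkStmt := by
  intro ℓ _ F _ hF G _ _ P N hP hPN hNP hidx V _ _ _ ρ hnot
  classical
  have : IsAlgClosed F := hF.closed
  have : CharP F ℓ := hF.char
  -- the action of `N` on the fixed points
  have hstab : ∀ n ∈ N, ∀ v ∈ fixV ρ P, ρ n v ∈ fixV ρ P := by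
    intro n hn v hv p hp
    have h1 : n⁻¹ * p * n ∈ P := by
      have h2 := (Subgroup.mem_normalizer_iff'' (H := P)).1 (hNP hn) p
      exact h2.1 hp
    have h3 : ρ p (ρ n v) = ρ n (ρ (n⁻¹ * p * n) v) := by
      rw [← Module.End.mul_apply, ← Module.End.mul_apply, ← map_mul, ← map_mul]
      congr 2
      group
    rw [h3, hv _ h1]
  let τ₀ : Representation F N (fixV ρ P) :=
    { toFun := fun n => (ρ n).restrict (hstab n n.2)
      map_one' := by
        apply LinearMap.ext
        intro v
        apply Subtype.ext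
        change ρ ((1 : N) : G) v = v
        simp
      map_mul' := by
        intro a b
        apply LinearMap.ext
        intro v
        apply Subtype.ext
        change ρ ((a * b : N) : G) v = ρ a (ρ b v)
        rw [Subgroup.coe_mul, map_mul]
        rfl }
  let P' : Subgroup N := P.subgroupOf N
  have hnorm : P'.Normal := (Subgroup.normal_subgroupOf_iff_le_normalizer hPN).2 hNP
  have hker : ∀ p ∈ P', τ₀ p = 1 := by
    intro p hp
    apply LinearMap.ext
    intro v
    apply Subtype.ext
    exact v.2 _ (Subgroup.mem_subgroupOf.1 hp)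
  let τ : Representation F (N ⧸ P') (fixV ρ P) := QuotientGroup.lift P' τ₀ hker
  have hτ : ∀ n : N, τ (QuotientGroup.mk n) = τ₀ n := fun n => rfl
  have hcard : NeZero (Nat.card (N ⧸ P') : F) := by
    refine ⟨fun h => hidx ?_⟩
    rw [CharP.cast_eq_zero_iff F ℓ] at h
    exact h
  let W : Submodule F (fixV ρ P) := (nrmV ρ P).comap (fixV ρ P).subtype
  have hfin := Fintype.ofFinite P
  have hWst : ∀ q, ∀ v ∈ W, τ q v ∈ W := by
    intro q
    refine QuotientGroup.induction_on q fun n v hv => ?_
    rw [hτ]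
    change ρ n (v : V) ∈ nrmV ρ P
    have hv' : (v : V) ∈ nrmV ρ P := hv
    obtain ⟨u, hu⟩ := hv'
    refine ⟨ρ n u, ?_⟩
    rw [← hu, finsum_eq_sum_of_fintype, LinearMap.sum_apply, LinearMap.sum_apply, map_sum]
    have hn : (n : G) ∈ Subgroup.normalizer (P : Set G) := hNP n.2
    let c : P ≃ P :=
      { toFun := fun p => ⟨(n : G) * p * (n : G)⁻¹, (Subgroup.mem_normalizer_iff.1 hn _).1 p.2⟩
        invFun := fun p => ⟨(n : G)⁻¹ * p * (n : G), (Subgroup.mem_normalizer_iff''.1 hn _).1 p.2⟩
        left_inv := fun p => by apply Subtype.ext; simp [mul_assoc]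
        right_inv := fun p => by apply Subtype.ext; simp [mul_assoc] }
    symm
    refine Fintype.sum_equiv c _ _ fun p => ?_
    change ρ n (ρ p u) = ρ ((n : G) * p * (n : G)⁻¹) (ρ n u)
    rw [← Module.End.mul_apply, ← Module.End.mul_apply, ← map_mul, ← map_mul]
    congr 2
    group
  have hWne : W ≠ ⊤ := by
    intro h
    apply hnot
    intro v hv
    have : (⟨v, hv⟩ : fixV ρ P) ∈ W := by rw [h]; trivial
    exact this
  obtain ⟨m, κ, ι, hκ, hint, w, hw⟩ := exk_abs τ W hWst hWne
  refine ⟨m, κ.comp (QuotientGroup.mk' P'), (fixV ρ P).subtype ∘ₗ ι, ⟨hκ.1, ?_⟩, ⟨?_, w, hw⟩⟩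
  · rw [← hκ.2]
    congr 1
    ext X
    constructor
    · rintro ⟨n, rfl⟩
      exact ⟨_, rfl⟩
    · rintro ⟨q, rfl⟩
      obtain ⟨n, rfl⟩ := QuotientGroup.mk'_surjective P' q
      exact ⟨n, rfl⟩
  · intro n w
    change ((ι ((κ (QuotientGroup.mk' P' n)).mulVec w) : fixV ρ P) : V) = ρ n (ι w : fixV ρ P)
    rw [hint]
    rfl

end Pool.Agent.PP.H63
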